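import Pool.Agent.H827Z.Mesh.Inst

set_option autoImplicit false
set_option linter.unusedSectionVars false

open Classical Finset
open Pool.Agent.Helper472.Mesh

namespace Pool.Agent.H827Z.Mesh

theorem second_moment {α β : Type} (U : Finset α) (T : Finset β) (F : β → α → ℝ) (τ : β → ℝ)
    {W ε : ℝ} (hF0 : ∀ b ∈ T, ∀ u ∈ U, 0 ≤ F b u) (hW : ∀ b ∈ T, ∑ u ∈ U, F b u ≤ W)
    (hτ : ∀ b ∈ T, ∀ u ∈ U, F b u ≤ τ b) (hτ0 : ∀ b ∈ T, 0 ≤ τ b) (hτ1 : ∑ b ∈ T, τ b ≤ 1)
    (hx : ∀ b ∈ T, ∀ b' ∈ T, b ≠ b' → ∑ u ∈ U, F b u * F b' u ≤ ε * W) (hε : 0 ≤ ε)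
    (hW0 : 0 ≤ W) :
    (∑ b ∈ T, ∑ u ∈ U, F b u) ^ 2 ≤ U.card * (W + (T.card : ℝ) ^ 2 * (ε * W)) := by
  rw [sum_comm]
  refine sq_sum_le_card_mul_sum_sq.trans (mul_le_mul_of_nonneg_left ?_ (Nat.cast_nonneg _))
  have h1 : ∑ u ∈ U, (∑ b ∈ T, F b u) ^ 2 = ∑ b ∈ T, ∑ b' ∈ T, ∑ u ∈ U, F b u * F b' u := by
    simp only [sq, sum_mul_sum]
    rw [sum_comm]
    exact sum_congr rfl fun b _ => sum_comm
  rw [h1]
  have h2 : ∀ b ∈ T, ∀ b' ∈ T, ∑ u ∈ U, F b u * F b' u ≤
      (if b = b' then τ b * W else 0) + ε * W := by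
    intro b hb b' hb'
    split_ifs with h
    · subst h
      have : ∑ u ∈ U, F b u * F b u ≤ τ b * W :=
        (sum_le_sum fun u hu => mul_le_mul_of_nonneg_right (hτ b hb u hu) (hF0 b hb u hu)).trans
          (by rw [← mul_sum]; exact mul_le_mul_of_nonneg_left (hW b hb) (hτ0 b hb))
      nlinarith [mul_nonneg hε hW0]
    · rw [zero_add]; exact hx b hb b' hb' h
  refine (sum_le_sum fun b hb => sum_le_sum (h2 b hb)).trans ?_
  have h3 : ∀ b ∈ T, ∑ b' ∈ T, ((if b = b' then τ b * W else 0) + ε * W) =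
      τ b * W + T.card * (ε * W) := fun b hb => by
    rw [sum_add_distrib, sum_ite_eq, if_pos hb, sum_const, nsmul_eq_mul]
  rw [sum_congr rfl h3, sum_add_distrib, ← sum_mul, sum_const, nsmul_eq_mul]
  nlinarith

variable {n : ℕ}

namespace Pm

variable (P : Pm n)

/-- release time of a block -/
noncomputable def sig (c : ℕ → Fin P.B) (x : ℕ → Bool) (S : Sched) (β : ℕ) : ℝ :=
  if β = 0 then 0 else (P.inst c x).finish S (P.crit c (β - 1))

/-- a strongly shrunk rectangle -/
def heavy (β : ℕ) (Q : Rect) : Prop := (P.R : ℝ) * ((Q.w : ℝ) * Q.h) < (P.a β : ℝ) * P.b β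

/-- the jobs of a block whose rectangle has a property -/
noncomputable def Rel (S : Sched) (β : ℕ) (ψ : Rect → Prop) : Finset (Fin P.N) :=
  univ.filter fun j => (j : ℕ) / P.B = β ∧ ψ (S.rect j)

/-- the unlikely event of seeing many short jobs first -/
def Ev (S : Sched) (x : ℕ → Bool) (β : ℕ) (ψ : Rect → Prop) : Prop :=
  ∃ t, P.M β ≤ ((P.Rel S β ψ).filter fun j : Fin P.N => S.start j ≤ t).card ∧
    ∀ j ∈ P.Rel S β ψ, S.start j ≤ t → x j = false

/-- many jobs of the block finish before the critical one -/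
def good (c : ℕ → Fin P.B) (x : ℕ → Bool) (S : Sched) (β : ℕ) : Prop :=
  2 * P.q ≤ (univ.filter fun s : Fin P.B => (P.inst c x).finish S (β * P.B + s) ≤
    (P.inst c x).finish S (P.crit c β)).card

variable {P} {c : ℕ → Fin P.B} {x : ℕ → Bool} {S : Sched}

theorem mem_Rel {β : ℕ} {ψ : Rect → Prop} {j : Fin P.N} :
    j ∈ P.Rel S β ψ ↔ (j : ℕ) / P.B = β ∧ ψ (S.rect j) := by simp [Rel]

theorem sig_succ (β : ℕ) : P.sig c x S (β + 1) = (P.inst c x).finish S (P.crit c β) := by
  simp [sig]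

theorem sig_le_start (hS : (P.inst c x).Feasible S) {j : ℕ} (hj : j < P.N) :
    P.sig c x S (j / P.B) ≤ S.start j := by
  unfold sig
  split_ifs with h
  · exact hS.start_nonneg j hj
  · exact hS.prec j hj _ (by simp only [inst, if_neg h, mem_singleton])

theorem sig_step (hS : (P.inst c x).Feasible S) {β : ℕ} (hβ : β < P.K) :
    P.sig c x S β ≤ P.sig c x S (β + 1) := by
  have := sig_le_start hS (P.crit_lt c hβ)
  rw [P.crit_div] at this
  rw [sig_succ]
  exact this.trans (start_lt_finish P hS (P.crit_lt c hβ)).le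

theorem sig_mono (hS : (P.inst c x).Feasible S) {β γ : ℕ} (h : β ≤ γ) (hγ : γ ≤ P.K) :
    P.sig c x S β ≤ P.sig c x S γ := by
  induction γ, h using Nat.le_induction with
  | base => exact le_rfl
  | succ m _ ih => exact (ih (by omega)).trans (sig_step hS hγ)

theorem long_fin (hS : (P.inst c x).Feasible S) {j : ℕ} (hj : j < P.N) (hx : x j = true) :
    S.start j + 2 ≤ (P.inst c x).finish S j := by
  simpa [inst, hx] using dur_ge hS hj

theorem short_work (hS : (P.inst c x).Feasible S) {j : ℕ} (hj : j < P.N) (hx : x j = false) :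
    ((P.inst c x).finish S j - S.start j) * (((S.rect j).w : ℝ) * (S.rect j).h) = P.W / P.B := by
  have hw : (0 : ℝ) < (S.rect j).w := by exact_mod_cast hS.w_pos j hj
  have hh : (0 : ℝ) < (S.rect j).h := by exact_mod_cast hS.h_pos j hj
  rw [← P.lam_mul (j / P.B)]
  simp only [Inst.finish, inst, hx, Bool.false_eq_true, if_false]
  field_simp
  ring

theorem card_blk (β : ℕ) (ψ : Rect → Prop) : (P.Rel S β ψ).card ≤ P.B := by
  refine le_trans (card_le_card_of_injOn (t := range P.B) (fun j : Fin P.N => (j : ℕ) % P.B)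
    (fun j _ => mem_coe.2 (mem_range.2 (Nat.mod_lt _ P.B_pos))) fun i hi j hj h => ?_) (by simp)
  have h1 := (mem_Rel.1 hi).1
  have h2 := (mem_Rel.1 hj).1
  ext
  rw [← Nat.div_add_mod i P.B, ← Nat.div_add_mod j P.B, h1, h2]
  exact congrArg _ h

/-- the deterministic core: a short round forces an unlikely event -/
theorem core (hS : (P.inst c x).Feasible S) {r : ℕ} (hr : r < P.R)
    (hD : P.sig c x S ((r + 1) * P.Φ) - P.sig c x S (r * P.Φ) < 1)
    (hH : ∀ j < P.N, P.heavy (j / P.B) (S.rect j) → x j = false)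
    (hE1 : ∀ β ∈ Ico (r * P.Φ) ((r + 1) * P.Φ), ¬ P.Ev S x β (P.heavy β))
    (hE2 : ∀ β ∈ Ico (r * P.Φ) ((r + 1) * P.Φ), ∀ Q : Rect, Q.x + Q.w ≤ n → Q.y + Q.h ≤ n →
      ¬ P.Ev S x β (fun J => ¬ Disjoint Q.cells J.cells))
    (hG : (P.Φ : ℝ) ≤ 2 * ((Ico (r * P.Φ) ((r + 1) * P.Φ)).filter (P.good c x S)).card) :
    False := by
  set T := Ico (r * P.Φ) ((r + 1) * P.Φ) with hT
  have hK : (r + 1) * P.Φ ≤ P.K := Nat.mul_le_mul_right _ hr
  have hT1 : ∀ β ∈ T, P.sig c x S (r * P.Φ) ≤ P.sig c x S β := fun β hβ =>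
    sig_mono hS (mem_Ico.1 hβ).1 ((mem_Ico.1 hβ).2.le.trans hK)
  have hT2 : ∀ β ∈ T, P.sig c x S (β + 1) ≤ P.sig c x S ((r + 1) * P.Φ) := fun β hβ =>
    sig_mono hS (mem_Ico.1 hβ).2 hK
  let G : ℕ → Finset (Fin P.N) := fun β => (P.Rel S β fun Q => ¬ P.heavy β Q).filter
    fun j => (P.inst c x).finish S j ≤ P.sig c x S (β + 1)
  let d : Fin P.N → ℝ := fun j => (P.inst c x).finish S j - S.start j
  have hd0 : ∀ j, 0 < d j := fun j => sub_pos.2 (start_lt_finish P hS j.2)
  have hGb : ∀ β, ∀ j ∈ G β, (j : ℕ) / P.B = β := fun β j hj =>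
    (mem_Rel.1 (mem_filter.1 hj).1).1
  have hGh : ∀ β, ∀ j ∈ G β, (P.a β : ℝ) * P.b β ≤ P.R * (((S.rect j).w : ℝ) * (S.rect j).h) :=
    fun β j hj => not_lt.1 (mem_Rel.1 (mem_filter.1 hj).1).2
  have hGf : ∀ β, ∀ j ∈ G β, (P.inst c x).finish S j ≤ P.sig c x S (β + 1) := fun β j hj =>
    (mem_filter.1 hj).2
  have hGs : ∀ β, ∀ j ∈ G β, P.sig c x S β ≤ S.start j := fun β j hj =>
    hGb β j hj ▸ sig_le_start hS j.2
  have hGx : ∀ β ∈ T, ∀ j ∈ G β, x j = false := fun β hβ j hj => by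
    by_contra h
    linarith [long_fin hS j.2 (by simpa using h), hGf β j hj, hGs β j hj, hT1 β hβ, hT2 β hβ]
  let U := range n ×ˢ range n
  have hU : ∀ j : Fin P.N, (S.rect j).cells ⊆ U := fun j =>
    cells_sub (hS.x_le j j.2) (hS.y_le j j.2)
  let F : ℕ → ℕ × ℕ → ℝ := fun β u => ∑ g ∈ G β, if u ∈ (S.rect g).cells then d g else 0
  have hFV : ∀ β (V : Finset (ℕ × ℕ)), ∑ u ∈ V, F β u =
      ∑ g ∈ G β, d g * (V ∩ (S.rect g).cells).card := fun β V => by
    simp only [F]
    rw [sum_comm]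
    refine sum_congr rfl fun g _ => ?_
    rw [sum_ite_mem, sum_const, nsmul_eq_mul, mul_comm]
  have hFU : ∀ β ∈ T, ∑ u ∈ U, F β u = (G β).card * (P.W / P.B) := fun β hβ => by
    rw [hFV, ← nsmul_eq_mul, ← sum_const]
    refine sum_congr rfl fun g hg => ?_
    rw [inter_eq_right.2 (hU g), Rect.card_cells, Nat.cast_mul]
    exact short_work hS g.2 (hGx β hβ g hg)
  have hWB : 0 < P.W / P.B := div_pos P.W_pos P.B_pos'
  have hFW : ∀ β ∈ T, ∑ u ∈ U, F β u ≤ P.W := fun β hβ => by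
    rw [hFU β hβ]
    have : ((G β).card : ℝ) ≤ P.B := by
      exact_mod_cast (card_filter_le _ _).trans (card_blk β _)
    calc _ ≤ P.B * (P.W / P.B) := by gcongr
      _ = P.W := mul_div_cancel₀ _ P.B_pos'.ne'
  have hF0 : ∀ β u, 0 ≤ F β u := fun β u =>
    sum_nonneg fun g _ => by split_ifs; exacts [(hd0 g).le, le_rfl]
  have hFτ : ∀ β ∈ T, ∀ u ∈ U, F β u ≤ P.sig c x S (β + 1) - P.sig c x S β := fun β hβ u _ => by
    have := work_le ((G β).filter fun g : Fin P.N => u ∈ (S.rect g).cells) (fun _ => 1)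
      (fun g => S.start g) (fun g => (P.inst c x).finish S g) (P.sig c x S β)
      (P.sig c x S (β + 1)) 1 (fun _ _ => zero_le_one)
      (fun g hg => hGs β g (mem_filter.1 hg).1) (fun g _ => (start_lt_finish P hS g.2).le)
      (fun g hg => hGf β g (mem_filter.1 hg).1)
      (sig_step hS ((mem_Ico.1 hβ).2.trans_le hK)) zero_le_one fun t _ _ => by
        rw [sum_const, nsmul_eq_mul, mul_one, Nat.cast_le_one, card_le_one]
        intro i hi j hj
        by_contra hne
        obtain ⟨h1, h2, h3⟩ := mem_filter.1 hi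
        obtain ⟨h4, h5, h6⟩ := mem_filter.1 hj
        exact disjoint_left.1 (hS.excl i i.2 j j.2 (fun h => hne (Fin.ext h)) t h2.le h3 h5.le h6)
          (mem_filter.1 h1).2 (mem_filter.1 h4).2
    simpa only [one_mul, F, ← sum_filter, d] using this
  have hk : (0 : ℝ) < P.k := by exact_mod_cast P.k_pos
  have hR : (0 : ℝ) < P.R := by exact_mod_cast P.R_pos
  set ε : ℝ := (P.Lg + 1) * P.R ^ 2 / P.k with hε
  have hε0 : 0 ≤ ε := by have := P.Lg_pos; positivity
  have hcross : ∀ β ∈ T, ∀ β' ∈ T, β < β' → ∑ u ∈ U, F β u * F β' u ≤ ε * P.W := by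
    intro β hβ β' hβ' hlt
    have key : ∀ g' ∈ G β', ∑ u ∈ (S.rect g').cells, F β u ≤
        ε * (((S.rect g').w : ℝ) * (S.rect g').h) := by
      intro g' hg'
      set Q := S.rect g' with hQ
      have hw : (0 : ℝ) < Q.w := by exact_mod_cast hS.w_pos g' g'.2
      have hh : (0 : ℝ) < Q.h := by exact_mod_cast hS.h_pos g' g'.2
      have hQw : (Q.w : ℝ) ≤ P.a β' := by
        rw [← hGb β' g' hg']; exact_mod_cast hS.w_le g' g'.2
      have hQh : (Q.h : ℝ) ≤ P.b β' := by
        rw [← hGb β' g' hg']; exact_mod_cast hS.h_le g' g'.2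
      have hQ1 := hGh β' g' hg'
      rw [← hQ] at hQ1
      have hcnt : (((P.Rel S β fun J => ¬ Disjoint Q.cells J.cells).filter
          fun j : Fin P.N => S.start j ≤ P.sig c x S (β + 1)).card : ℝ) ≤ P.M β := by
        have := hE2 β hβ Q (hS.x_le g' g'.2) (hS.y_le g' g'.2)
        by_contra hcon
        refine this ⟨P.sig c x S (β + 1), by exact_mod_cast (not_le.1 hcon).le, fun j hj hs => ?_⟩
        by_contra hxj
        obtain ⟨hb, hm⟩ := mem_Rel.1 hj
        have h1 := long_fin hS j.2 (by simpa using hxj)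
        have h2 := sig_le_start hS j.2
        rw [hb] at h2
        have h3 := sig_mono hS (show β + 1 ≤ β' from hlt) ((mem_Ico.1 hβ').2.le.trans hK)
        have h4 := hGs β' g' hg'
        have h5 := hGf β' g' hg'
        have h6 := start_lt_finish P hS g'.2
        refine hm (hS.excl g' g'.2 j j.2 (fun h => ?_) (S.start g') le_rfl h6 (by linarith)
          (by linarith [hT1 β hβ, hT2 β' hβ']))
        have := hGb β' g' hg'
        rw [h, hb] at this
        omega
      have hone : ∀ g ∈ G β, d g * (Q.cells ∩ (S.rect g).cells).card ≤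
          if ¬ Disjoint Q.cells (S.rect g).cells then
            P.lam β * P.R * (P.R / P.k * ((Q.w : ℝ) * Q.h)) else 0 := by
        intro g hg
        split_ifs with hdis
        · rw [disjoint_iff_inter_eq_empty.1 hdis]; simp
        · have hw' : (0 : ℝ) < (S.rect g).w := by exact_mod_cast hS.w_pos g g.2
          have hh' : (0 : ℝ) < (S.rect g).h := by exact_mod_cast hS.h_pos g g.2
          have hJw : ((S.rect g).w : ℝ) ≤ P.a β := by
            rw [← hGb β g hg]; exact_mod_cast hS.w_le g g.2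
          have hJh : ((S.rect g).h : ℝ) ≤ P.b β := by
            rw [← hGb β g hg]; exact_mod_cast hS.h_le g g.2
          have h1 : d g ≤ P.lam β * P.R := by
            have e1 := short_work hS g.2 (hGx β hβ g hg)
            rw [← P.lam_mul β] at e1
            have e2 := mul_le_mul_of_nonneg_left (hGh β g hg) (P.lam_pos β).le
            rw [← e1, ← mul_assoc (P.lam β)] at e2
            exact le_of_mul_le_mul_right e2 (mul_pos hw' hh')
          have h2 : ((Q.cells ∩ (S.rect g).cells).card : ℝ) ≤ P.R / P.k * ((Q.w : ℝ) * Q.h) := by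
            obtain ⟨e1, e2⟩ := inter_card_le Q (S.rect g)
            have e1' : ((Q.cells ∩ (S.rect g).cells).card : ℝ) ≤ ((S.rect g).w : ℝ) * Q.h := by
              exact_mod_cast e1
            have e2' : ((Q.cells ∩ (S.rect g).cells).card : ℝ) ≤ (Q.w : ℝ) * (S.rect g).h := by
              exact_mod_cast e2
            have ha' := P.a_pos' β'
            have hb' := P.b_pos' β'
            rw [div_mul_eq_mul_div, le_div_iff₀ hk]
            rcases P.shape_step (mem_Ico.1 hβ).1 hlt (mem_Ico.1 hβ').2 with e3 | e3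
            · have e4 : (P.k : ℝ) * P.a β ≤ P.a β' := by exact_mod_cast e3
              have e5 : (P.a β' : ℝ) * Q.h ≤ P.a β' * P.b β' := by gcongr
              have e6 : ((S.rect g).w : ℝ) * P.k ≤ P.a β' := by nlinarith
              nlinarith
            · have e4 : (P.k : ℝ) * P.b β ≤ P.b β' := by exact_mod_cast e3
              have e5 : (Q.w : ℝ) * P.b β' ≤ P.a β' * P.b β' := by gcongr
              have e6 : ((S.rect g).h : ℝ) * P.k ≤ P.b β' := by nlinarith
              nlinarith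
          exact mul_le_mul h1 h2 (Nat.cast_nonneg _) (mul_pos (P.lam_pos β) hR).le
      rw [hFV]
      refine (sum_le_sum hone).trans ?_
      rw [← sum_filter, sum_const, nsmul_eq_mul]
      have h3 : (((G β).filter fun g : Fin P.N =>
          ¬ Disjoint Q.cells (S.rect g).cells).card : ℝ) ≤ P.M β := by
        refine le_trans ?_ hcnt
        refine Nat.cast_le.2 (card_le_card fun g hg => mem_filter.2 ⟨mem_Rel.2
          ⟨hGb β g (mem_filter.1 hg).1, (mem_filter.1 hg).2⟩,
          (start_lt_finish P hS g.2).le.trans (hGf β g (mem_filter.1 hg).1)⟩)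
      have h4 := P.lam_pos β
      calc _ ≤ P.M β * (P.lam β * P.R * (P.R / P.k * ((Q.w : ℝ) * Q.h))) := by gcongr
        _ = P.M β * P.lam β * (P.R ^ 2 / P.k * ((Q.w : ℝ) * Q.h)) := by ring
        _ ≤ (P.Lg + 1) * (P.R ^ 2 / P.k * ((Q.w : ℝ) * Q.h)) := by gcongr; exact P.M_lam β
        _ = _ := by rw [hε]; ring
    have h1 : ∑ u ∈ U, F β u * F β' u = ∑ g' ∈ G β', d g' * ∑ u ∈ (S.rect g').cells, F β u := by
      simp only [F, mul_sum (G β')]
      rw [sum_comm]
      refine sum_congr rfl fun g' _ => ?_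
      simp only [mul_ite, mul_zero]
      rw [sum_ite_mem, inter_eq_right.2 (hU g'), mul_sum]
      exact sum_congr rfl fun u _ => mul_comm _ _
    rw [h1]
    refine (sum_le_sum fun g' hg' => mul_le_mul_of_nonneg_left (key g' hg') (hd0 g').le).trans ?_
    refine le_trans (le_of_eq ?_) (mul_le_mul_of_nonneg_left (hFW β' hβ') hε0)
    rw [hFU β' hβ', ← nsmul_eq_mul, ← sum_const, mul_sum]
    refine sum_congr rfl fun g hg => ?_
    rw [← short_work hS g.2 (hGx β' hβ' g hg)]
    ring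
  have hgood : ∀ β ∈ T.filter (P.good c x S), P.W / 16 ≤ ∑ u ∈ U, F β u := by
    intro β hβ
    obtain ⟨hβ, hg⟩ := mem_filter.1 hβ
    have hβK : β < P.K := (mem_Ico.1 hβ).2.trans_le hK
    have h1 : ((P.Rel S β (P.heavy β)).filter
        fun j : Fin P.N => S.start j ≤ P.sig c x S (β + 1)).card < P.M β := by
      by_contra hcon
      refine hE1 β hβ ⟨_, not_lt.1 hcon, fun j hj _ => hH j j.2 ?_⟩
      obtain ⟨hb, hm⟩ := mem_Rel.1 hj
      rwa [hb]
    have h2 : 2 * P.q ≤ (G β ∪ (P.Rel S β (P.heavy β)).filter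
        fun j : Fin P.N => S.start j ≤ P.sig c x S (β + 1)).card := by
      refine le_trans hg (card_le_card_of_injOn (fun s => ⟨_, P.idx_lt hβK s⟩) (fun s hs => ?_)
        fun s _ s' _ h => Fin.ext (Nat.add_left_cancel (Fin.mk.inj h)))
      have hf := (mem_filter.1 hs).2
      rw [← sig_succ] at hf
      rw [mem_coe, mem_union]
      by_cases hh : P.heavy β (S.rect (β * P.B + s))
      · exact Or.inr (mem_filter.2 ⟨mem_Rel.2 ⟨P.idx_div β s, hh⟩,
          (start_lt_finish P hS (P.idx_lt hβK s)).le.trans hf⟩)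
      · exact Or.inl (mem_filter.2 ⟨mem_Rel.2 ⟨P.idx_div β s, hh⟩, hf⟩)
    have h3 : P.q ≤ (G β).card := by
      have := h2.trans (card_union_le _ _)
      have := P.M_le β
      omega
    have h4 : (P.q : ℝ) ≤ (G β).card := by exact_mod_cast h3
    have hq : (0 : ℝ) < P.q := by have := P.q_ge; exact_mod_cast (by omega : 0 < P.q)
    rw [hFU β hβ]
    refine le_trans (le_of_eq ?_) (mul_le_mul_of_nonneg_right h4 hWB.le)
    rw [P.B_cast]; field_simp
  have hΩ : P.Φ * P.W / 32 ≤ ∑ β ∈ T, ∑ u ∈ U, F β u := by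
    refine le_trans ?_ (sum_le_sum_of_subset_of_nonneg (filter_subset (P.good c x S) T)
      fun β _ _ => sum_nonneg fun u _ => hF0 β u)
    refine le_trans ?_ (sum_le_sum hgood)
    rw [sum_const, nsmul_eq_mul]
    nlinarith [P.W_pos]
  have hsm := second_moment U T F (fun β => P.sig c x S (β + 1) - P.sig c x S β)
    (fun β _ u _ => hF0 β u) hFW hFτ
    (fun β hβ => sub_nonneg.2 (sig_step hS ((mem_Ico.1 hβ).2.trans_le hK)))
    (by rw [hT, sum_Ico_sub _ (Nat.mul_le_mul_right _ (Nat.le_succ r))]; exact hD.le)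
    (fun β hβ β' hβ' hne => by
      rcases lt_or_gt_of_ne hne with h | h
      · exact hcross β hβ β' hβ' h
      · simpa only [mul_comm] using hcross β' hβ' β hβ h) hε0 P.W_pos.le
  have hUc : (U.card : ℝ) = (n : ℝ) ^ 2 := by simp [U, sq]
  have hTc : (T.card : ℝ) ^ 2 = P.R := by
    rw [hT, Nat.card_Ico, add_mul, one_mul, Nat.add_sub_cancel_left, R]; push_cast; ring
  rw [hUc, hTc] at hsm
  have hW := P.W_pos
  have h1 : (P.Φ * P.W / 32) ^ 2 ≤ _ := (pow_le_pow_left₀ (by positivity) hΩ 2).trans hsm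
  have h2 : (P.Φ * P.W / 32) ^ 2 = P.R * P.W / 1024 * P.W := by unfold R; push_cast; ring
  have h3 : ε * (n : ℝ) ^ 2 ≤ P.W / 2048 := by
    have := P.c3
    rw [← P.R_cast] at this
    rw [hε, div_mul_eq_mul_div, div_le_div_iff₀ hk (by norm_num)]
    linarith
  have h4 := P.c4
  rw [← P.R_cast] at h4
  rw [h2] at h1
  have h5 := mul_le_mul_of_nonneg_left h3 (mul_pos hR hW).le
  have h6 := mul_lt_mul_of_pos_right h4 hW
  nlinarith

end Pm

end Pool.Agent.H827Z.Mesh
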