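import Mathlib

set_option autoImplicit false
set_option linter.unusedSectionVars false

open Classical Finset

namespace Pool.Agent.H827Z.Mesh

variable {ι : Type} [Fintype ι] [LinearOrder ι]

/-- product weight of a vector of independent flags -/
noncomputable def wt (p : ι → ℝ) (x : ι → Bool) : ℝ := ∏ j, if x j then p j else 1 - p j

theorem wt_nonneg {p : ι → ℝ} (h0 : ∀ j, 0 ≤ p j) (h1 : ∀ j, p j ≤ 1) (x : ι → Bool) :
    0 ≤ wt p x :=
  prod_nonneg fun j _ => by split_ifs; exacts [h0 j, sub_nonneg.2 (h1 j)]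

theorem sum_wt (p : ι → ℝ) : ∑ x, wt p x = 1 := by
  have := Finset.prod_univ_sum (fun _ : ι => (univ : Finset Bool))
    (fun j b => if b then p j else 1 - p j)
  simp only [Fintype.piFinset_univ] at this
  unfold wt
  rw [← this]
  simp

theorem wt_update (p : ι → ℝ) (x : ι → Bool) (j : ι) (hx : x j = false) :
    wt p (Function.update x j true) * (1 - p j) = wt p x * p j := by
  unfold wt
  rw [← Finset.mul_prod_erase univ _ (mem_univ j), ← Finset.mul_prod_erase univ
    (fun j => if x j then p j else 1 - p j) (mem_univ j)]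
  have : ∏ i ∈ univ.erase j, (if Function.update x j true i then p i else 1 - p i) =
      ∏ i ∈ univ.erase j, if x i then p i else 1 - p i :=
    prod_congr rfl fun i hi => by rw [Function.update_of_ne (ne_of_mem_erase hi)]
  rw [this]
  simp only [Function.update_self, if_true, hx, Bool.false_eq_true, if_false]
  ring

theorem mean_flag (p : ι → ℝ) (j : ι) : ∑ x, wt p x * (if x j then 1 else 0) = p j := by
  have := Finset.prod_univ_sum (fun _ : ι => (univ : Finset Bool))
    (fun i b => (if b then p i else 1 - p i) * (if i = j then (if b then 1 else 0) else 1))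
  simp only [Fintype.piFinset_univ, prod_mul_distrib] at this
  have h1 : ∀ x : ι → Bool, (∏ i, if i = j then (if x i then (1 : ℝ) else 0) else 1) =
      if x j then 1 else 0 := fun x => by simp
  simp only [h1] at this
  unfold wt
  rw [← this, ← Finset.mul_prod_erase univ _ (mem_univ j), prod_eq_one]
  · simp
  · intro i hi
    simp [ne_of_mem_erase hi]

theorem exists_rank {α : Type} [LinearOrder α] (S : Finset ι) (key : ι → α)
    (hk : Function.Injective key) {m : ℕ} (hm : m < S.card) :
    ∃ j ∈ S, (S.filter fun i => key i < key j).card = m := by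
  have h1 : ∀ j ∈ S, (S.filter fun i => key i < key j).card ∈ range S.card := fun j hj =>
    mem_range.2 (card_lt_card ⟨filter_subset _ _, fun h => by
      simpa using (mem_filter.1 (h hj)).2⟩)
  have h2 : ∀ a ∈ S, ∀ b ∈ S, key a < key b →
      (S.filter fun i => key i < key a).card < (S.filter fun i => key i < key b).card :=
    fun a ha b _ hab => card_lt_card ⟨fun i hi => mem_filter.2
      ⟨(mem_filter.1 hi).1, (mem_filter.1 hi).2.trans hab⟩, fun h => by
        simpa using (mem_filter.1 (h (mem_filter.2 ⟨ha, hab⟩))).2⟩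
  obtain ⟨j, hj, h⟩ := surj_on_of_inj_on_of_card_le (s := S) (t := range S.card)
    (fun j _ => (S.filter fun i => key i < key j).card) h1 (fun a b ha hb hab => by
      rcases lt_trichotomy (key a) (key b) with h | h | h
      · exact absurd hab (h2 a ha b hb h).ne
      · exact hk h
      · exact absurd hab (h2 b hb a ha h).ne') (by simp) m (mem_range.2 hm)
  exact ⟨j, hj, h.symm⟩

/-- principle of deferred decisions -/
theorem deferred [Nonempty ι] {p : ι → ℝ} (h0 : ∀ j, 0 ≤ p j) (h1 : ∀ j, p j ≤ 1) {p0 : ℝ}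
    (hp1 : p0 ≤ 1) (Rel : (ι → Bool) → Finset ι) (st : (ι → Bool) → ι → ℝ)
    (hp : ∀ x, ∀ j ∈ Rel x, p j = p0)
    (hflip : ∀ x, ∀ j ∈ Rel x, x j = false → ∀ i,
      ((i ∈ Rel x ∧ st x i ≤ st x j) ↔
        (i ∈ Rel (Function.update x j true) ∧ st (Function.update x j true) i ≤ st x j)) ∧
      (i ∈ Rel x → st x i ≤ st x j → st (Function.update x j true) i = st x i)) (M : ℕ) :
    ∑ x, wt p x * (if ∃ t, M ≤ ((Rel x).filter fun j => st x j ≤ t).card ∧
      ∀ j ∈ Rel x, st x j ≤ t → x j = false then 1 else 0) ≤ (1 - p0) ^ M := by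
  let key : (ι → Bool) → ι → ℝ ×ₗ ι := fun x j => toLex (st x j, j)
  have hkey : ∀ x, Function.Injective (key x) := fun x a b h =>
    congrArg Prod.snd (toLex.injective h)
  have hle : ∀ x a b, key x a < key x b → st x a ≤ st x b := fun x a b h => by
    rcases Prod.Lex.toLex_lt_toLex.1 h with h | h
    exacts [h.le, h.1.le]
  let rk : (ι → Bool) → ι → ℕ := fun x j => ((Rel x).filter fun i => key x i < key x j).card
  let E : ℕ → Finset (ι → Bool) := fun m =>
    univ.filter fun x => m ≤ (Rel x).card ∧ ∀ j ∈ Rel x, rk x j < m → x j = false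
  have hrk_lt : ∀ x, ∀ a ∈ Rel x, ∀ b, key x a < key x b → rk x a < rk x b :=
    fun x a ha b hab => card_lt_card ⟨fun i hi => mem_filter.2
      ⟨(mem_filter.1 hi).1, (mem_filter.1 hi).2.trans hab⟩, fun h => by
        simpa using (mem_filter.1 (h (mem_filter.2 ⟨ha, hab⟩))).2⟩
  have hrk_inj : ∀ x, ∀ a ∈ Rel x, ∀ b ∈ Rel x, rk x a = rk x b → a = b := by
    intro x a ha b hb hab
    rcases lt_trichotomy (key x a) (key x b) with h | h | h
    · exact absurd hab (hrk_lt x a ha b h).ne
    · exact hkey x h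
    · exact absurd hab (hrk_lt x b hb a h).ne'
  have hstep : ∀ m, ∑ x ∈ E (m + 1), wt p x ≤ (1 - p0) * ∑ x ∈ E m, wt p x := by
    intro m
    have hex : ∀ x ∈ E (m + 1), ∃ j ∈ Rel x, rk x j = m := fun x hx =>
      exists_rank (Rel x) (key x) (hkey x) (mem_filter.1 hx).2.1
    choose! J hJ1 hJ2 using hex
    let φ : (ι → Bool) → ι → Bool := fun x => Function.update x (J x) true
    have hxJ : ∀ x ∈ E (m + 1), x (J x) = false := fun x hx =>
      (mem_filter.1 hx).2.2 _ (hJ1 x hx) (by rw [hJ2 x hx]; omega)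
    have hkeq : ∀ x ∈ E (m + 1), ∀ i ∈ Rel x, st x i ≤ st x (J x) → i ∈ Rel (φ x) ∧
        key (φ x) i = key x i := fun x hx i hi hs => by
      obtain ⟨h1, h2⟩ := hflip x _ (hJ1 x hx) (hxJ x hx) i
      exact ⟨(h1.1 ⟨hi, hs⟩).1, by simp only [key, φ, h2 hi hs]⟩
    have hrkeq : ∀ x ∈ E (m + 1), ∀ i ∈ Rel x, st x i ≤ st x (J x) → rk (φ x) i = rk x i := by
      intro x hx i hi hs
      simp only [rk]
      congr 1
      ext l
      simp only [mem_filter]
      constructor
      · rintro ⟨hl, hlt⟩
        have h3 : st (φ x) l ≤ st x (J x) := by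
          have := hle _ _ _ hlt
          have h4 : st (φ x) i = st x i := congrArg Prod.fst (toLex.injective (hkeq x hx i hi hs).2)
          linarith
        obtain ⟨h4, h5⟩ := (hflip x _ (hJ1 x hx) (hxJ x hx) l).1.2 ⟨hl, h3⟩
        rw [(hkeq x hx l h4 h5).2, (hkeq x hx i hi hs).2] at hlt
        exact ⟨h4, hlt⟩
      · rintro ⟨hl, hlt⟩
        have h3 := (hle _ _ _ hlt).trans hs
        exact ⟨(hkeq x hx l hl h3).1, by rw [(hkeq x hx l hl h3).2, (hkeq x hx i hi hs).2]; exact hlt⟩
    have hJφ : ∀ x ∈ E (m + 1), J x ∈ Rel (φ x) ∧ rk (φ x) (J x) = m := fun x hx =>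
      ⟨(hkeq x hx _ (hJ1 x hx) le_rfl).1, by rw [hrkeq x hx _ (hJ1 x hx) le_rfl, hJ2 x hx]⟩
    have hφE : ∀ x ∈ E (m + 1), φ x ∈ E m \ E (m + 1) := by
      intro x hx
      obtain ⟨h2, h3⟩ := hJφ x hx
      refine mem_sdiff.2 ⟨mem_filter.2 ⟨mem_univ _, h3 ▸ card_filter_le _ _, fun i hi hr => ?_⟩,
        fun h => ?_⟩
      · have hlt : key (φ x) i < key (φ x) (J x) := by
          rcases lt_trichotomy (key (φ x) i) (key (φ x) (J x)) with h | h | h
          · exact h
          · rw [hkey _ h, h3] at hr; omega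
          · have := hrk_lt _ _ h2 _ h; omega
        have hne : i ≠ J x := fun h => by rw [h] at hlt; exact lt_irrefl _ hlt
        have h4 : st (φ x) i ≤ st x (J x) := by
          have := hle _ _ _ hlt
          have h5 : st (φ x) (J x) = st x (J x) :=
            congrArg Prod.fst (toLex.injective (hkeq x hx _ (hJ1 x hx) le_rfl).2)
          linarith
        obtain ⟨h5, h6⟩ := (hflip x _ (hJ1 x hx) (hxJ x hx) i).1.2 ⟨hi, h4⟩
        simp only [φ, Function.update_of_ne hne]
        exact (mem_filter.1 hx).2.2 i h5 (by rw [← hrkeq x hx i h5 h6]; omega)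
      · have := (mem_filter.1 h).2.2 _ h2 (by omega)
        simp [φ] at this
    have hinj : Set.InjOn φ (E (m + 1)) := by
      intro x hx y hy hxy
      have h2 := hJφ x hx
      have h3 := hJφ y hy
      rw [← hxy] at h3
      have h4 : J x = J y := hrk_inj _ _ h2.1 _ h3.1 (h2.2.trans h3.2.symm)
      funext i
      by_cases hi : i = J x
      · rw [hi, hxJ x hx, h4, hxJ y hy]
      · have := congrFun hxy i
        simpa only [φ, Function.update_of_ne hi, Function.update_of_ne (h4 ▸ hi)] using this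
    have hsub : E (m + 1) ⊆ E m := fun x hx => mem_filter.2 ⟨mem_univ _,
      by have := (mem_filter.1 hx).2.1; omega,
      fun j hj hr => (mem_filter.1 hx).2.2 j hj (by omega)⟩
    have h2 : ∑ x ∈ E (m + 1), wt p (φ x) ≤ ∑ x ∈ E m \ E (m + 1), wt p x := by
      rw [← sum_image hinj]
      exact sum_le_sum_of_subset_of_nonneg (image_subset_iff.2 hφE) fun x _ _ => wt_nonneg h0 h1 x
    have h3 : (1 - p0) * ∑ x ∈ E (m + 1), wt p (φ x) = p0 * ∑ x ∈ E (m + 1), wt p x := by
      rw [mul_sum, mul_sum]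
      refine sum_congr rfl fun x hx => ?_
      have := wt_update p x (J x) (hxJ x hx)
      rw [hp x _ (hJ1 x hx)] at this
      linarith
    have h4 := sum_sdiff (f := wt p) hsub
    have h5 := mul_le_mul_of_nonneg_left h2 (sub_nonneg.2 hp1)
    nlinarith
  have hE : ∀ m, ∑ x ∈ E m, wt p x ≤ (1 - p0) ^ m := by
    intro m
    induction m with
    | zero =>
      rw [pow_zero, ← sum_wt p]
      exact sum_le_sum_of_subset_of_nonneg (subset_univ _) fun x _ _ => wt_nonneg h0 h1 x
    | succ m ih =>
      rw [pow_succ']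
      exact (hstep m).trans (mul_le_mul_of_nonneg_left ih (sub_nonneg.2 hp1))
  refine le_trans ?_ (hE M)
  simp only [mul_ite, mul_one, mul_zero]
  rw [← sum_filter]
  refine sum_le_sum_of_subset_of_nonneg (fun x hx => ?_) fun x _ _ => wt_nonneg h0 h1 x
  obtain ⟨t, h2, h3⟩ := (mem_filter.1 hx).2
  refine mem_filter.2 ⟨mem_univ _, h2.trans (card_filter_le _ _), fun j hj hr => h3 j hj ?_⟩
  by_contra hcon
  have : ((Rel x).filter fun j => st x j ≤ t).card ≤ rk x j :=
    card_le_card fun i hi => mem_filter.2 ⟨(mem_filter.1 hi).1,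
      Prod.Lex.toLex_lt_toLex.2 (Or.inl ((mem_filter.1 hi).2.trans_lt (not_le.1 hcon)))⟩
  omega

/-- few elements have small rank -/
theorem few_small {N : ℕ} (F : Fin N → ℝ) (q : ℕ) :
    (univ.filter fun v => (univ.filter fun s => F s ≤ F v).card < q).card ≤ q := by
  set V := univ.filter fun v => (univ.filter fun s => F s ≤ F v).card < q
  rcases V.eq_empty_or_nonempty with h | h
  · simp [h]
  · obtain ⟨v, hv, hmax⟩ := V.exists_max_image F h
    exact ((card_le_card fun s hs => mem_filter.2 ⟨mem_univ _, hmax s hs⟩).trans_lt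
      (mem_filter.1 hv).2).le

end Pool.Agent.H827Z.Mesh
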