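import Pool.Agent.Helper472.Mesh.Model

open MeasureTheory
open Pool.Agent.Helper472.Mesh

namespace Pool.Agent.H827Z.Mesh

/-- `ρ` is achieved by a randomized online algorithm on the `n × n` mesh: a probability
distribution over deterministic online algorithms whose expected makespan on every fixed
instance (oblivious adversary) is at most `ρ` times the optimal offline makespan. -/
def RandCompetitive (n : ℕ) (ρ : ℝ) : Prop :=
  ∃ (Ω : Type) (_ : MeasurableSpace Ω) (μ : Measure Ω) (A : Ω → Inst n → Sched),
    IsProbabilityMeasure μ ∧ (∀ ω, Online (A ω)) ∧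
      ∀ I : Inst n, Integrable (fun ω => I.makespan (A ω I)) μ ∧
        ∫ ω, I.makespan (A ω I) ∂μ ≤ ρ * I.opt

/-- `R_rand(m)` for the mesh with `m = n ^ 2` processors: the optimal randomized
competitive ratio. -/
noncomputable def Rrand (n : ℕ) : ℝ := sInf {ρ : ℝ | RandCompetitive n ρ}

end Pool.Agent.H827Z.Mesh
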