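import Pool.Agent.H827Z.Mesh.Opt
import Pool.Agent.H827Z.Mesh.Defs

set_option autoImplicit false
set_option linter.unusedSectionVars false

open Classical Finset MeasureTheory
open Pool.Agent.Helper472.Mesh

namespace Pool.Agent.H827Z.Mesh

variable {n : ℕ}

theorem opt_nonneg (I : Inst n) : 0 ≤ I.opt :=
  Real.sInf_nonneg (by rintro _ ⟨S, hS, rfl⟩; exact Inst.makespan_nonneg hS)

/-- averaging over the random instance -/
theorem yao (P : Pm n) {ρ : ℝ} (h : RandCompetitive n ρ) : (P.h : ℝ) ^ 2 / 100000 ≤ ρ := by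
  obtain ⟨Ω, _, μ, A, _, hA, hI⟩ := h
  set C : ℝ := (Fintype.card (Fin P.K → Fin P.B) : ℝ) with hC
  have : Nonempty (Fin P.B) := ⟨⟨0, P.B_pos⟩⟩
  have hC0 : 0 < C := by rw [hC]; exact_mod_cast Fintype.card_pos
  have hw := wt_nonneg P.pr0 P.pr1
  have hint : ∀ (c : Fin P.K → Fin P.B) (x : Fin P.N → Bool), Integrable (fun ω => wt P.pr x *
      (P.inst (P.ec c) (P.ex x)).makespan (A ω (P.inst (P.ec c) (P.ex x)))) μ :=
    fun c x => (hI _).1.const_mul _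
  have h1 : C * (P.R / 2 : ℝ) ≤ ∫ ω, ∑ c : Fin P.K → Fin P.B, ∑ x, wt P.pr x *
      (P.inst (P.ec c) (P.ex x)).makespan (A ω (P.inst (P.ec c) (P.ex x))) ∂μ := by
    have := integral_mono (integrable_const (C * (P.R / 2 : ℝ)))
      (integrable_finset_sum univ fun c _ => integrable_finset_sum univ fun x _ => hint c x)
      fun ω => Pm.alg_bound (hA ω)
    simpa using this
  rw [integral_finset_sum _ fun c _ => integrable_finset_sum univ fun x _ => hint c x] at h1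
  have h2 : ∀ c : Fin P.K → Fin P.B, ∫ ω, ∑ x, wt P.pr x *
      (P.inst (P.ec c) (P.ex x)).makespan (A ω (P.inst (P.ec c) (P.ex x))) ∂μ ≤
      ρ * ∑ x, wt P.pr x * (P.inst (P.ec c) (P.ex x)).opt := fun c => by
    rw [integral_finset_sum _ fun x _ => hint c x, mul_sum]
    refine sum_le_sum fun x _ => ?_
    rw [integral_const_mul, mul_left_comm]
    exact mul_le_mul_of_nonneg_left (hI _).2 (hw x)
  have h3 := h1.trans (sum_le_sum fun c _ => h2 c)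
  rw [← mul_sum] at h3
  have h4 := sum_le_sum fun (c : Fin P.K → Fin P.B) (_ : c ∈ univ) => P.opt_bound (P.ec c)
  rw [sum_const, card_univ, nsmul_eq_mul, ← hC] at h4
  have h5 : 0 ≤ ∑ c : Fin P.K → Fin P.B, ∑ x, wt P.pr x * (P.inst (P.ec c) (P.ex x)).opt :=
    sum_nonneg fun c _ => sum_nonneg fun x _ => mul_nonneg (hw x) (opt_nonneg _)
  have hΦ : (0 : ℝ) < P.Φ := by exact_mod_cast P.Φ_pos
  have hR : (P.R : ℝ) = P.Φ * P.Φ := by simp [Pm.R]
  have h6 : 0 ≤ ρ := by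
    by_contra hρ
    have := mul_nonneg (neg_nonneg.2 (not_le.1 hρ).le) h5
    have : 0 < C * (P.R / 2 : ℝ) := by rw [hR]; positivity
    linarith
  have h7 := h3.trans (mul_le_mul_of_nonneg_left h4 h6)
  rw [← P.Φ_cast, div_le_iff₀ (by norm_num)]
  refine le_of_mul_le_mul_left (a := C * P.Φ / 2) ?_ (by positivity)
  rw [hR] at h7
  linarith

theorem rand_of_det {A : Inst n → Sched} (hA : Online A) {ρ : ℝ} (h : Competitive A ρ) :
    RandCompetitive n ρ :=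
  ⟨Unit, ⊤, Measure.dirac (), fun _ => A, inferInstance, fun _ => hA, fun I =>
    ⟨integrable_const _, by simpa using h I⟩⟩

theorem exists_pm (hn : 1 ≤ n) {L : ℝ} (hL : L = Real.log ((n : ℝ) ^ 2))
    (h1 : 1 ≤ Real.log L) (h2 : 2 ≤ L) (h3 : 48 * Real.log L ≤ L) :
    ∃ P : Pm n, L / Real.log L / 52 ≤ P.h := by
  have hL0 : 0 < L := by linarith
  set LL := Real.log L with hLL
  have hLL0 : 0 < LL := by linarith
  have hn0 : (0 : ℝ) < n := by exact_mod_cast hn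
  have hn1 : (1 : ℝ) ≤ n := by exact_mod_cast hn
  set x : ℝ := L / (26 * LL) with hx
  have hx1 : 1 ≤ x := by rw [hx, le_div_iff₀ (by positivity)]; linarith
  set h : ℕ := ⌊x⌋₊ with hh
  have hh1 : (h : ℝ) ≤ x := Nat.floor_le (by linarith)
  have hh2 : x < h + 1 := Nat.lt_floor_add_one x
  have hh4 : 1 ≤ h := Nat.le_floor (by exact_mod_cast hx1)
  have hh5 : (1 : ℝ) ≤ h := by exact_mod_cast hh4
  have hhL : (h : ℝ) ≤ L / 2 := by
    refine hh1.trans ?_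
    rw [hx, div_le_div_iff₀ (by positivity) (by norm_num)]
    nlinarith
  set k : ℕ := ⌊L ^ 13⌋₊ with hk
  have hkL' : (k : ℝ) ≤ L ^ 13 := Nat.floor_le (by positivity)
  have hk1 : L ^ 13 ≤ 2 * k := by
    have e1 := Nat.lt_floor_add_one (L ^ 13)
    have e2 : L ^ 1 ≤ L ^ 13 := pow_le_pow_right₀ (by linarith) (by norm_num)
    rw [← hk] at e1
    linarith
  have hL5 : L ^ 5 ≤ L ^ 13 := pow_le_pow_right₀ (by linarith) (by norm_num)
  have hL1 : (2 : ℝ) ^ 5 ≤ L ^ 5 := by gcongr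
  have hk2 : (1 : ℝ) ≤ k := by linarith
  have hE : Real.exp L = (n : ℝ) ^ 2 := by rw [hL, Real.exp_log (by positivity)]
  have hkh : (k : ℝ) ^ h ≤ n := by
    have e1 : (L ^ 13) ^ h = Real.exp (LL * (13 * h)) := by
      rw [← pow_mul]
      conv_lhs => rw [← Real.exp_log hL0, ← Real.exp_nat_mul]
      congr 1; push_cast; ring
    have e2 : LL * (13 * h) ≤ Real.log n := by
      have e4 : L = 2 * Real.log n := by rw [hL, Real.log_pow]; norm_num
      have e5 : LL * x = L / 26 := by rw [hx]; field_simp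
      have e6 : LL * h ≤ LL * x := by gcongr
      linarith
    calc (k : ℝ) ^ h ≤ (L ^ 13) ^ h := by gcongr
      _ ≤ Real.exp (Real.log n) := by rw [e1]; exact Real.exp_le_exp.2 e2
      _ = n := Real.exp_log hn0
  set W : ℝ := 4096 * (n : ℝ) ^ 2 / (h : ℝ) ^ 4 with hW
  have hW0 : 0 < W := by positivity
  have hWh : W * (h : ℝ) ^ 4 = 4096 * (n : ℝ) ^ 2 := by rw [hW]; field_simp
  have hq : W * (h : ℝ) ^ 6 ≤ 16 * ((⌈W * (h : ℝ) ^ 6⌉₊ + 2 : ℕ) : ℝ) := by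
    have := Nat.le_ceil (W * (h : ℝ) ^ 6)
    have : 0 < W * (h : ℝ) ^ 6 := by positivity
    push_cast; linarith
  refine ⟨⟨h, k, ⌈W * (h : ℝ) ^ 6⌉₊ + 2, W, 5 * L, hh4, by exact_mod_cast hk2,
    by exact_mod_cast hkh, Nat.le_add_left _ _, hW0, by positivity, hq, ?_, ?_, ?_, ?_, ?_,
    hWh.le⟩, ?_⟩
  · rw [le_div_iff₀ hW0, one_mul]
    exact (le_mul_of_one_le_right hW0.le (one_le_pow₀ hh5)).trans hq
  · have e1 : (k : ℝ) ^ (h - 1) * k ≤ n := by rwa [← pow_succ, Nat.sub_add_cancel hh4]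
    have e2 : ((k : ℝ) ^ (h - 1) * k) ^ 2 ≤ (n : ℝ) ^ 2 := by gcongr
    have e3 : (h : ℝ) ^ 4 ≤ L ^ 4 := by gcongr; linarith
    have e4 : 160 * L * (h : ℝ) ^ 4 ≤ 4096 * (k : ℝ) ^ 2 := by
      have : L * (h : ℝ) ^ 4 ≤ L ^ 5 := by rw [pow_succ' L 4]; gcongr
      nlinarith
    rw [hW, le_div_iff₀ (by positivity)]
    have e5 := mul_le_mul_of_nonneg_left e4 (sq_nonneg ((k : ℝ) ^ (h - 1)))
    rw [mul_pow] at e2
    linarith
  · have e1 : (h : ℝ) ^ 12 ≤ (L / 2) ^ 12 := by gcongr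
    have e2 : (5 * L + 1) * (h : ℝ) ^ 12 ≤ 6 * L * (L / 2) ^ 12 := by gcongr; linarith
    have e3 : 6 * L * (L / 2) ^ 12 = 6 / 4096 * L ^ 13 := by ring
    have e4 : (5 * L + 1) * (h : ℝ) ^ 12 ≤ 2 * k := by linarith
    have e5 := mul_le_mul_of_nonneg_left e4 (show 0 ≤ 2048 * (n : ℝ) ^ 2 by positivity)
    rw [hW, div_mul_eq_mul_div, le_div_iff₀ (by positivity)]
    linarith
  · rw [mul_comm _ W, hWh]
    have : 0 < (n : ℝ) ^ 2 := by positivity
    linarith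
  · have e1 : Real.exp (5 * L) = ((n : ℝ) ^ 2) ^ 5 := by
      rw [← hE, ← Real.exp_nat_mul]; norm_num
    have e2 : 68 ≤ ((n : ℝ) ^ 2) ^ 2 := by
      rw [← hE]
      nlinarith [Real.add_one_le_exp L]
    have e3 : (h : ℝ) ≤ n := by
      have : L / 2 + 1 ≤ Real.exp (L / 2) := Real.add_one_le_exp _
      have e : Real.exp (L / 2) = n := by
        rw [hL, Real.log_pow]; push_cast
        rw [mul_div_cancel_left₀ _ two_ne_zero, Real.exp_log hn0]
      linarith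
    have e4 : ((n : ℝ) + 1) ^ 4 + 1 ≤ 17 * (n : ℝ) ^ 4 := by
      have : ((n : ℝ) + 1) ^ 4 ≤ (2 * n) ^ 4 := by gcongr; linarith
      have : (1 : ℝ) ≤ (n : ℝ) ^ 4 := one_le_pow₀ hn1
      linarith
    rw [Real.exp_neg, e1, ← div_eq_mul_inv, div_le_iff₀ (by positivity)]
    calc (h : ℝ) ^ 2 * (((n : ℝ) + 1) ^ 4 + 1) ≤ (n : ℝ) ^ 2 * (17 * (n : ℝ) ^ 4) := by gcongr
      _ = 1 / 4 * (68 * ((n : ℝ) ^ 2) ^ 3) := by ring
      _ ≤ 1 / 4 * (((n : ℝ) ^ 2) ^ 2 * ((n : ℝ) ^ 2) ^ 3) := by gcongr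
      _ = _ := by ring
  · have : L / LL / 52 = x / 2 := by rw [hx]; field_simp; ring
    rw [this]
    change _ ≤ (h : ℝ)
    linarith

theorem rand_lower : ∀ᶠ n : ℕ in Filter.atTop, ∀ ρ, RandCompetitive n ρ →
    1 / 10 ^ 9 * (Real.log ((n : ℝ) ^ 2) / Real.log (Real.log ((n : ℝ) ^ 2))) ^ 2 ≤ ρ := by
  filter_upwards [eventually_large] with n ⟨h1, h2, h3, h4⟩ ρ hρ
  obtain ⟨P, hP⟩ := exists_pm h1 rfl h2 h3 h4
  refine le_trans ?_ (yao P hρ)
  have := pow_le_pow_left₀ (by positivity) hP 2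
  rw [div_pow] at this
  nlinarith [sq_nonneg (P.h : ℝ)]

theorem Rrand_lower : ∀ᶠ n : ℕ in Filter.atTop,
    1 / 10 ^ 9 * (Real.log ((n : ℝ) ^ 2) / Real.log (Real.log ((n : ℝ) ^ 2))) ^ 2 ≤ Rrand n := by
  filter_upwards [rand_lower] with n hn
  exact le_csInf ⟨_, rand_of_det seq_online seq_competitive⟩ hn

end Pool.Agent.H827Z.Mesh
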