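import Pool.Agent.Helper472.Mesh.Asym
import Pool.Agent.H827Z.Mesh.DD

set_option autoImplicit false
set_option linter.unusedSectionVars false

open Classical Finset
open Pool.Agent.Helper472.Mesh

namespace Pool.Agent.H827Z.Mesh

/-- parameters of the random instance -/
structure Pm (n : ℕ) where
  h : ℕ
  k : ℕ
  q : ℕ
  W : ℝ
  Lg : ℝ
  h_pos : 0 < h
  k_pos : 1 ≤ k
  k_pow : k ^ h ≤ n
  q_ge : 2 ≤ q
  W_pos : 0 < W
  Lg_pos : 0 < Lg
  c1 : W * (h : ℝ) ^ 6 ≤ 16 * q
  c1' : (1 : ℝ) ≤ 16 * q / W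
  c2 : 32 * Lg * ((k : ℝ) ^ (h - 1)) ^ 2 ≤ W
  c3 : 2048 * (Lg + 1) * ((h : ℝ) ^ 4) ^ 2 * (n : ℝ) ^ 2 ≤ W * k
  c4 : 2048 * (n : ℝ) ^ 2 < (h : ℝ) ^ 4 * W
  c6 : (h : ℝ) ^ 2 * (((n : ℝ) + 1) ^ 4 + 1) * Real.exp (-Lg) ≤ 1 / 4
  c7 : W * (h : ℝ) ^ 4 ≤ 4096 * (n : ℝ) ^ 2

variable {n : ℕ}

namespace Pm

variable (P : Pm n)

/-- number of shapes -/
def Φ : ℕ := P.h * P.h
/-- number of rounds -/
def R : ℕ := P.Φ * P.Φ
/-- number of blocks -/
def K : ℕ := P.R * P.Φ
/-- block size -/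
def B : ℕ := 16 * P.q
/-- number of jobs -/
def N : ℕ := P.K * P.B
/-- width of a block -/
def a (β : ℕ) : ℕ := P.k ^ (β % P.Φ / P.h)
/-- height of a block -/
def b (β : ℕ) : ℕ := P.k ^ (β % P.Φ % P.h)
/-- short length, also the probability of being long -/
noncomputable def lam (β : ℕ) : ℝ := P.W / (P.B * ((P.a β : ℝ) * P.b β))
/-- number of short jobs one may see -/
noncomputable def M (β : ℕ) : ℕ := ⌈P.Lg / P.lam β⌉₊

theorem Φ_pos : 0 < P.Φ := Nat.mul_pos P.h_pos P.h_pos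
theorem R_pos : 0 < P.R := Nat.mul_pos P.Φ_pos P.Φ_pos
theorem K_pos : 0 < P.K := Nat.mul_pos P.R_pos P.Φ_pos
theorem B_pos : 0 < P.B := by have := P.q_ge; unfold B; omega
theorem N_pos : 0 < P.N := Nat.mul_pos P.K_pos P.B_pos
theorem Φ_cast : (P.Φ : ℝ) = (P.h : ℝ) ^ 2 := by unfold Φ; push_cast; ring
theorem R_cast : (P.R : ℝ) = (P.h : ℝ) ^ 4 := by unfold R Φ; push_cast; ring
theorem K_cast : (P.K : ℝ) = (P.h : ℝ) ^ 6 := by unfold K R Φ; push_cast; ring
theorem B_cast : (P.B : ℝ) = 16 * P.q := by unfold B; push_cast; ring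
theorem B_pos' : (0 : ℝ) < P.B := by exact_mod_cast P.B_pos
theorem a_pos (β : ℕ) : 1 ≤ P.a β := Nat.one_le_pow _ _ P.k_pos
theorem b_pos (β : ℕ) : 1 ≤ P.b β := Nat.one_le_pow _ _ P.k_pos
theorem a_pos' (β : ℕ) : (1 : ℝ) ≤ P.a β := by exact_mod_cast P.a_pos β
theorem b_pos' (β : ℕ) : (1 : ℝ) ≤ P.b β := by exact_mod_cast P.b_pos β

theorem a_le' (β : ℕ) : P.a β ≤ P.k ^ (P.h - 1) := by
  refine Nat.pow_le_pow_right P.k_pos ?_
  have : β % P.Φ / P.h < P.h := Nat.div_lt_of_lt_mul (Nat.mod_lt _ P.Φ_pos)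
  omega

theorem b_le' (β : ℕ) : P.b β ≤ P.k ^ (P.h - 1) := by
  refine Nat.pow_le_pow_right P.k_pos ?_
  have : β % P.Φ % P.h < P.h := Nat.mod_lt _ P.h_pos
  omega

theorem pow_le : P.k ^ (P.h - 1) ≤ n :=
  (Nat.pow_le_pow_right P.k_pos (Nat.sub_le _ _)).trans P.k_pow

include P in
theorem n_pos : 1 ≤ n := (Nat.one_le_pow _ _ P.k_pos).trans P.k_pow

theorem lam_pos (β : ℕ) : 0 < P.lam β := by
  have := P.W_pos; have := P.B_pos'; have := P.a_pos' β; have := P.b_pos' β
  unfold lam; positivity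

theorem lam_mul (β : ℕ) : P.lam β * ((P.a β : ℝ) * P.b β) = P.W / P.B := by
  have := P.B_pos'; have := P.a_pos' β; have := P.b_pos' β
  unfold lam; field_simp

theorem lam_le (β : ℕ) : P.lam β ≤ P.W / P.B := by
  rw [← P.lam_mul β]
  exact le_mul_of_one_le_right (P.lam_pos β).le
    (one_le_mul_of_one_le_of_one_le (P.a_pos' β) (P.b_pos' β))

theorem lam_le_one (β : ℕ) : P.lam β ≤ 1 := by
  refine (P.lam_le β).trans ?_
  have := P.c1'
  rw [le_div_iff₀ P.W_pos] at this
  rw [div_le_one P.B_pos', P.B_cast]; linarith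

theorem K_lam (β : ℕ) : P.K * P.lam β ≤ 1 := by
  refine (mul_le_mul_of_nonneg_left (P.lam_le β) (Nat.cast_nonneg _)).trans ?_
  rw [← mul_div_assoc, div_le_one P.B_pos', P.K_cast, P.B_cast]
  linarith [P.c1]

theorem M_lam (β : ℕ) : P.M β * P.lam β ≤ P.Lg + 1 := by
  have h1 : (P.M β : ℝ) < P.Lg / P.lam β + 1 :=
    Nat.ceil_lt_add_one (div_pos P.Lg_pos (P.lam_pos β)).le
  have h2 := P.lam_pos β
  have h3 := mul_le_mul_of_nonneg_right h1.le h2.le
  rw [add_mul, div_mul_cancel₀ _ h2.ne'] at h3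
  linarith [P.lam_le_one β]

theorem M_le (β : ℕ) : P.M β ≤ P.q := by
  have h1 : P.Lg / P.lam β ≤ (P.q : ℝ) / 2 := by
    rw [div_le_iff₀ (P.lam_pos β)]
    have ha : (P.a β : ℝ) ≤ (P.k : ℝ) ^ (P.h - 1) := by exact_mod_cast P.a_le' β
    have hb : (P.b β : ℝ) ≤ (P.k : ℝ) ^ (P.h - 1) := by exact_mod_cast P.b_le' β
    have h2 : (P.a β : ℝ) * P.b β ≤ ((P.k : ℝ) ^ (P.h - 1)) ^ 2 := by
      rw [sq]; exact mul_le_mul ha hb (by positivity) (by positivity)
    have h3 := mul_le_mul_of_nonneg_left h2 P.Lg_pos.le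
    have h4 := P.c2
    have hab : 0 < (P.a β : ℝ) * P.b β := by have := P.a_pos' β; have := P.b_pos' β; positivity
    have hq : (0 : ℝ) < P.q := by have := P.q_ge; exact_mod_cast (by omega : 0 < P.q)
    unfold lam
    rw [P.B_cast, ← mul_div_assoc, le_div_iff₀ (by positivity)]
    nlinarith
  have h2 : (2 : ℝ) ≤ P.q := by exact_mod_cast P.q_ge
  exact Nat.ceil_le.2 (by linarith)

theorem pow_M (β : ℕ) : (1 - P.lam β) ^ P.M β ≤ Real.exp (-P.Lg) := by
  calc (1 - P.lam β) ^ P.M β ≤ Real.exp (-P.lam β) ^ P.M β :=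
        pow_le_pow_left₀ (sub_nonneg.2 (P.lam_le_one β)) (by
          linarith [Real.add_one_le_exp (-P.lam β)]) _
    _ = Real.exp (-(P.M β * P.lam β)) := by rw [← Real.exp_nat_mul]; ring_nf
    _ ≤ _ := by
      refine Real.exp_le_exp.2 (neg_le_neg ?_)
      have := Nat.le_ceil (P.Lg / P.lam β)
      rwa [div_le_iff₀ (P.lam_pos β)] at this

theorem shape_step {r β β' : ℕ} (h1 : r * P.Φ ≤ β) (h2 : β < β') (h3 : β' < (r + 1) * P.Φ) :
    P.k * P.a β ≤ P.a β' ∨ P.k * P.b β ≤ P.b β' := by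
  have hij : β % P.Φ < β' % P.Φ := by
    have e1 : β % P.Φ = β - r * P.Φ := by
      rw [← Nat.mod_eq_of_lt (show β - r * P.Φ < P.Φ by rw [add_mul] at h3; omega)]
      conv_lhs => rw [show β = β - r * P.Φ + r * P.Φ by omega, Nat.add_mul_mod_self_right]
    have e2 : β' % P.Φ = β' - r * P.Φ := by
      rw [← Nat.mod_eq_of_lt (show β' - r * P.Φ < P.Φ by rw [add_mul] at h3; omega)]
      conv_lhs => rw [show β' = β' - r * P.Φ + r * P.Φ by omega, Nat.add_mul_mod_self_right]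
    omega
  unfold a b
  generalize β % P.Φ = i at *
  generalize β' % P.Φ = j at *
  have h1 : i / P.h ≤ j / P.h := Nat.div_le_div_right hij.le
  rcases h1.lt_or_eq with h2 | h2
  · left
    rw [← pow_succ']
    exact Nat.pow_le_pow_right P.k_pos h2
  · right
    have h3 : i % P.h < j % P.h := by
      have e1 := Nat.div_add_mod i P.h
      have e2 := Nat.div_add_mod j P.h
      rw [← h2] at e2
      omega
    rw [← pow_succ']
    exact Nat.pow_le_pow_right P.k_pos h3

/-- the critical job of a block -/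
def crit (c : ℕ → Fin P.B) (β : ℕ) : ℕ := β * P.B + c β

theorem idx_div (β : ℕ) (s : Fin P.B) : (β * P.B + s) / P.B = β := by
  rw [add_comm, Nat.add_mul_div_right _ _ P.B_pos, Nat.div_eq_of_lt s.2, zero_add]

theorem idx_lt {β : ℕ} (hβ : β < P.K) (s : Fin P.B) : β * P.B + s < P.N := by
  have := s.2
  have h2 : (β + 1) * P.B ≤ P.K * P.B := Nat.mul_le_mul_right _ hβ
  unfold N
  rw [add_mul] at h2
  omega

theorem crit_div (c : ℕ → Fin P.B) (β : ℕ) : P.crit c β / P.B = β := P.idx_div β _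

theorem crit_lt (c : ℕ → Fin P.B) {β : ℕ} (hβ : β < P.K) : P.crit c β < P.N := P.idx_lt hβ _

theorem div_lt {j : ℕ} (hj : j < P.N) : j / P.B < P.K :=
  Nat.div_lt_of_lt_mul (by rwa [mul_comm])

/-- the instance -/
noncomputable def inst (c : ℕ → Fin P.B) (x : ℕ → Bool) : Inst n where
  N := P.N
  a j := P.a (j / P.B)
  b j := P.b (j / P.B)
  len j := if x j then 2 else P.lam (j / P.B)
  pred j := if j / P.B = 0 then ∅ else {P.crit c (j / P.B - 1)}
  a_pos _ _ := P.a_pos _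
  a_le _ _ := (P.a_le' _).trans P.pow_le
  b_pos _ _ := P.b_pos _
  b_le _ _ := (P.b_le' _).trans P.pow_le
  len_nonneg j _ := by
    split_ifs
    exacts [zero_le_two, (P.lam_pos _).le]
  pred_lt j _ i hi := by
    split_ifs at hi with h
    · simp at hi
    · rw [mem_singleton] at hi
      have h1 := P.crit_div c (j / P.B - 1)
      rw [← hi] at h1
      by_contra h2
      have h3 := Nat.div_le_div_right (c := P.B) (not_lt.1 h2)
      rw [h1] at h3
      generalize j / P.B = d at h h3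
      omega

theorem len_pos (c : ℕ → Fin P.B) (x : ℕ → Bool) (j : ℕ) : 0 < (P.inst c x).len j := by
  simp only [inst]
  split_ifs
  exacts [two_pos, P.lam_pos _]

end Pm

theorem dur_ge {I : Inst n} {S : Sched} (hS : I.Feasible S) {j : ℕ} (hj : j < I.N) :
    S.start j + I.len j ≤ I.finish S j := by
  have hw : (0 : ℝ) < (S.rect j).w := by exact_mod_cast hS.w_pos j hj
  have hh : (0 : ℝ) < (S.rect j).h := by exact_mod_cast hS.h_pos j hj
  have h1 : ((S.rect j).w : ℝ) ≤ I.a j := by exact_mod_cast hS.w_le j hj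
  have h2 : ((S.rect j).h : ℝ) ≤ I.b j := by exact_mod_cast hS.h_le j hj
  unfold Inst.finish
  rw [add_le_add_iff_left, le_div_iff₀ (by positivity)]
  exact mul_le_mul_of_nonneg_left (mul_le_mul h1 h2 hh.le (hw.le.trans h1)) (I.len_nonneg j hj)

theorem start_lt_finish (P : Pm n) {c : ℕ → Fin P.B} {x : ℕ → Bool} {S : Sched}
    (hS : (P.inst c x).Feasible S) {j : ℕ} (hj : j < P.N) :
    S.start j < (P.inst c x).finish S j :=
  lt_of_lt_of_le (lt_add_of_pos_right _ (P.len_pos c x j)) (dur_ge hS hj)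

variable {A : Inst n → Sched}

/-- flipping a flag does not change what is started before the short job would finish -/
theorem flip_agree (hA : Online A) (P : Pm n) (c : ℕ → Fin P.B) {x x' : ℕ → Bool} {j : ℕ}
    (hj : j < P.N) (hx : x j = false) (hx' : ∀ i, i ≠ j → x' i = x i) {i : ℕ} (hi : i < P.N) :
    ((A (P.inst c x)).start i ≤ (A (P.inst c x)).start j →
      (A (P.inst c x')).start i = (A (P.inst c x)).start i ∧
        (A (P.inst c x')).rect i = (A (P.inst c x)).rect i) ∧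
    ((A (P.inst c x')).start i ≤ (A (P.inst c x)).start j →
      (A (P.inst c x)).start i ≤ (A (P.inst c x)).start j) := by
  have hlt := start_lt_finish P (hA.feasible (P.inst c x)) hj
  have hs : SameInfo (P.inst c x) (P.inst c x') (A (P.inst c x))
      ((P.inst c x).finish (A (P.inst c x)) j) := by
    refine ⟨rfl, fun _ _ => ⟨rfl, rfl, rfl⟩, fun l hl => ?_, fun l hl hl' => ?_⟩
    · have : l ≠ j := by
        rintro rfl
        simp [Inst.done] at hl
      simp only [Pm.inst, hx' l this]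
    · have hlN : l < P.N := mem_range.1 (mem_filter.1 hl).1
      have h1 : (P.inst c x).finish (A (P.inst c x)) j ≤ (P.inst c x).finish (A (P.inst c x)) l := by
        by_contra h
        exact hl' (mem_filter.2 ⟨mem_range.2 hlN, not_le.1 h⟩)
      refine h1.trans ?_
      unfold Inst.finish
      have : (P.inst c x).len l ≤ (P.inst c x').len l := by
        by_cases h : l = j
        · subst h
          simp only [Pm.inst, hx, Bool.false_eq_true, if_false]
          split_ifs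
          · linarith [P.lam_le_one (l / P.B)]
          · exact le_rfl
        · simp only [Pm.inst, hx' l h, le_refl]
      change _ ≤ _ + (P.inst c x').len l * (((P.inst c x).a l : ℝ) * (P.inst c x).b l) / _
      gcongr
  obtain ⟨h1, h2⟩ := hA.nonanticipating _ _ _ hs i
  refine ⟨fun h => h2 hi (h.trans_lt hlt), fun h => ?_⟩
  have h3 := (h1.2 ⟨hi, h.trans_lt hlt⟩).2
  rw [← (h2 hi h3).1]
  exact h

theorem same_crit (P : Pm n) {c c' : ℕ → Fin P.B} (x : ℕ → Bool) {β : ℕ}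
    (hc : ∀ γ, γ ≠ β → c' γ = c γ) (S : Sched) {t : ℝ}
    (h1 : t ≤ (P.inst c x).finish S (P.crit c β)) (h2 : t ≤ (P.inst c x).finish S (P.crit c' β)) :
    SameInfo (P.inst c x) (P.inst c' x) S t := by
  have n1 : P.crit c β ∉ (P.inst c x).done S t := fun h => absurd (mem_filter.1 h).2 (not_lt.2 h1)
  have n2 : P.crit c' β ∉ (P.inst c x).done S t := fun h => absurd (mem_filter.1 h).2 (not_lt.2 h2)
  have hp : ∀ j, (P.inst c' x).pred j = (P.inst c x).pred j ∨
      ((P.inst c' x).pred j = {P.crit c' β} ∧ (P.inst c x).pred j = {P.crit c β}) := by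
    intro j
    simp only [Pm.inst]
    split_ifs with h
    · exact Or.inl rfl
    · by_cases h3 : j / P.B - 1 = β
      · exact Or.inr ⟨by rw [h3], by rw [h3]⟩
      · left; simp only [Pm.crit, hc _ h3]
  refine ⟨?_, fun j hj => ⟨rfl, rfl, ?_⟩, fun _ _ => rfl, fun l hl hl' => ?_⟩
  · ext j
    simp only [Inst.known, mem_filter]
    rcases hp j with h | ⟨h, h'⟩
    · rw [h]; rfl
    · rw [h, h']
      simp [n1, n2]
  · rcases hp j with h | ⟨_, h'⟩
    · exact h
    · have := (mem_filter.1 hj).2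
      rw [h'] at this
      exact absurd (this (mem_singleton_self _)) n1
  · have hlN : l < P.N := mem_range.1 (mem_filter.1 hl).1
    by_contra h
    exact hl' (mem_filter.2 ⟨mem_range.2 hlN, not_le.1 h⟩)

theorem crit_agree (hA : Online A) (P : Pm n) {c c' : ℕ → Fin P.B} (x : ℕ → Bool) {β : ℕ}
    (hβ : β < P.K) (hc : ∀ γ, γ ≠ β → c' γ = c γ)
    (h : (P.inst c x).finish (A (P.inst c x)) (P.crit c β) ≤
      (P.inst c' x).finish (A (P.inst c' x)) (P.crit c' β)) :
    (P.inst c' x).finish (A (P.inst c' x)) (P.crit c β) =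
      (P.inst c x).finish (A (P.inst c x)) (P.crit c β) := by
  have key : ∀ j < P.N, (P.inst c x).finish (A (P.inst c x)) j ≤
      (P.inst c x).finish (A (P.inst c x)) (P.crit c β) →
      (P.inst c x).finish (A (P.inst c x)) j ≤ (P.inst c x).finish (A (P.inst c x)) (P.crit c' β) →
      (P.inst c' x).finish (A (P.inst c' x)) j = (P.inst c x).finish (A (P.inst c x)) j := by
    intro j hj h1 h2
    obtain ⟨h3, h4⟩ := (hA.nonanticipating _ _ _ (same_crit P x hc _ h1 h2) j).2 hj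
      (start_lt_finish P (hA.feasible _) hj)
    unfold Inst.finish
    rw [h3, h4]; rfl
  refine key _ (P.crit_lt c hβ) le_rfl ?_
  by_contra h1
  have := key _ (P.crit_lt c' hβ) (not_le.1 h1).le le_rfl
  linarith [not_le.1 h1]

end Pool.Agent.H827Z.Mesh
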