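import Pool.Agent.H827Z.Mesh.Prob

set_option autoImplicit false
set_option linter.unusedSectionVars false

open Classical Finset
open Pool.Agent.Helper472.Mesh

namespace Pool.Agent.H827Z.Mesh

variable {n : ℕ}

/-- an offline schedule that runs layers of identical jobs one after the other -/
theorem layered (I : Inst n) (m : ℕ) (cls a b : ℕ → ℕ) (ℓ : ℕ → ℝ) (hcls : ∀ j < I.N, cls j < m)
    (ha : ∀ j < I.N, I.a j = a (cls j)) (hb : ∀ j < I.N, I.b j = b (cls j))
    (hl : ∀ j < I.N, I.len j = ℓ (cls j)) (hl0 : ∀ i, 0 ≤ ℓ i)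
    (hab : ∀ i, 1 ≤ a i ∧ a i ≤ n ∧ 1 ≤ b i ∧ b i ≤ n)
    (hpred : ∀ j < I.N, ∀ i ∈ I.pred j, cls i < cls j) :
    I.opt ≤ ∑ j ∈ range I.N, 4 * (I.len j * ((I.a j : ℝ) * I.b j)) / (n : ℝ) ^ 2 +
      ∑ i ∈ range m, ℓ i := by
  have hn : (0 : ℝ) < n := by have := hab 0; exact_mod_cast (by omega : 0 < n)
  have h0 : ∀ (X : Finset ℕ) (k : ℕ), X ⊆ range I.N → 0 ≤
      ∑ j ∈ X, 4 * (I.len j * ((I.a j : ℝ) * I.b j)) / (n : ℝ) ^ 2 + ∑ i ∈ range k, ℓ i :=
    fun X k hX => add_nonneg (sum_nonneg fun j hj => by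
      have := I.len_nonneg j (mem_range.1 (hX hj)); positivity) (sum_nonneg fun i _ => hl0 i)
  have key : ∀ k, ∃ S, FeasOn I S ((range I.N).filter fun j => cls j < k)
      (∑ j ∈ (range I.N).filter fun j => cls j < k,
        4 * (I.len j * ((I.a j : ℝ) * I.b j)) / (n : ℝ) ^ 2 + ∑ i ∈ range k, ℓ i) := by
    intro k
    induction k with
    | zero => exact ⟨seqSched I, by constructor <;> simp⟩
    | succ k ih =>
      obtain ⟨S, hS⟩ := ih
      set G := (range I.N).filter fun j => cls j = k with hG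
      have hG1 : ∀ j ∈ G, j < I.N := fun j hj => mem_range.1 (mem_filter.1 hj).1
      have hG2 : ∀ j ∈ G, cls j = k := fun j hj => (mem_filter.1 hj).2
      have hG3 : ∀ j ∈ G, j ∉ (range I.N).filter fun j => cls j < k := fun j hj h => by
        have := (mem_filter.1 h).2
        have := hG2 j hj
        omega
      obtain ⟨a1, a2, b1, b2⟩ := hab k
      obtain ⟨S', hS'⟩ := hS.extend (h0 _ _ (filter_subset _ _)) G (a k) (b k) (ℓ k) (hl0 k) hG1
        hG3 (fun j hj => by rw [ha j (hG1 j hj), hG2 j hj])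
        (fun j hj => by rw [hb j (hG1 j hj), hG2 j hj])
        (fun j hj => by rw [hl j (hG1 j hj), hG2 j hj])
        (fun j hj i hi => mem_filter.2 ⟨mem_range.2 ((I.pred_lt j (hG1 j hj) i hi).trans
          (hG1 j hj)), hG2 j hj ▸ hpred j (hG1 j hj) i hi⟩) a1 a2 b1 b2
      have e1 : ((range I.N).filter fun j => cls j < k + 1) =
          ((range I.N).filter fun j => cls j < k) ∪ G := by
        ext j
        simp only [hG, mem_filter, mem_union]
        constructor
        · rintro ⟨h1, h2⟩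
          rcases Nat.lt_succ_iff_lt_or_eq.1 h2 with h | h
          exacts [Or.inl ⟨h1, h⟩, Or.inr ⟨h1, h⟩]
        · rintro (⟨h1, h2⟩ | ⟨h1, h2⟩) <;> exact ⟨h1, by omega⟩
      rw [e1]
      refine ⟨S', hS'.lt, hS'.start_nonneg, hS'.w_pos, hS'.h_pos, hS'.w_le, hS'.h_le, hS'.x_le,
        hS'.y_le, fun j hj => (hS'.fin j hj).trans ?_, hS'.pred_mem, hS'.prec, hS'.excl⟩
      rw [sum_union (disjoint_right.2 hG3), sum_range_succ, sum_congr rfl (s₁ := G)
        (g := fun _ => 4 * (ℓ k * ((a k : ℝ) * b k)) / (n : ℝ) ^ 2) fun j hj => by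
          rw [ha j (hG1 j hj), hb j (hG1 j hj), hl j (hG1 j hj), hG2 j hj], sum_const,
        nsmul_eq_mul]
      have a1' : (0 : ℝ) < a k := by exact_mod_cast a1
      have b1' : (0 : ℝ) < b k := by exact_mod_cast b1
      have h1 : ℓ k * (G.card / (slots n (a k) (b k) : ℝ)) ≤
          ℓ k * (G.card / ((n : ℝ) ^ 2 / (4 * (a k * b k)))) := by
        have := hl0 k
        gcongr
        exact slots_ge a1 a2 b1 b2
      have h2 : ℓ k * (G.card / ((n : ℝ) ^ 2 / (4 * (a k * b k)))) =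
          G.card * (4 * (ℓ k * ((a k : ℝ) * b k)) / (n : ℝ) ^ 2) := by field_simp
      linarith
  obtain ⟨S, hS⟩ := key m
  rw [filter_true_of_mem fun j hj => hcls j (mem_range.1 hj)] at hS
  exact (Inst.opt_le (hS.feasible fun j hj => mem_range.2 hj)).trans
    (I.makespan_le S (h0 _ _ Subset.rfl) fun j hj => hS.fin j (mem_range.2 hj))

namespace Pm

variable (P : Pm n)

theorem opt_le (c : ℕ → Fin P.B) (x : ℕ → Bool) : (P.inst c x).opt ≤
    ∑ j ∈ range P.N, 4 * ((P.inst c x).len j * ((P.a (j / P.B) : ℝ) * P.b (j / P.B))) /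
      (n : ℝ) ^ 2 + (∑ β ∈ range P.K, (P.inst c x).len (P.crit c β) + 3 * P.Φ) := by
  let cls : ℕ → ℕ := fun j => if j = P.crit c (j / P.B) then j / P.B
    else P.K + (if x j then P.Φ else 0) + j / P.B % P.Φ
  let ℓ : ℕ → ℝ := fun i => if i < P.K then (P.inst c x).len (P.crit c i)
    else if i < P.K + P.Φ then P.lam i else 2
  have hm : ∀ j, cls j % P.Φ = j / P.B % P.Φ := fun j => by
    simp only [cls, K]
    split_ifs <;> simp [Nat.add_mod]
  have hΦ : ∀ j, j % P.Φ < P.Φ := fun j => Nat.mod_lt _ P.Φ_pos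
  refine (layered (P.inst c x) (P.K + P.Φ + P.Φ) cls P.a P.b ℓ (fun j hj => ?_)
    (fun j _ => by simp only [inst, a, hm]) (fun j _ => by simp only [inst, b, hm])
    (fun j hj => ?_) (fun i => ?_) (fun i => ⟨P.a_pos i, (P.a_le' i).trans P.pow_le, P.b_pos i,
      (P.b_le' i).trans P.pow_le⟩) (fun j hj i hi => ?_)).trans (add_le_add le_rfl ?_)
  · have := P.div_lt hj
    have := hΦ (j / P.B)
    simp only [cls]
    split_ifs <;> omega
  · have h1 := P.div_lt hj
    have h2 := hΦ (j / P.B)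
    have h3 : P.lam (cls j) = P.lam (j / P.B) := by simp only [lam, a, b, hm]
    simp only [ℓ, h3]
    by_cases h : j = P.crit c (j / P.B)
    · simp only [cls, if_pos h, if_pos h1, ← h]
    · cases hx : x j
      · have : cls j = P.K + j / P.B % P.Φ := by simp [cls, if_neg h, hx]
        rw [this, if_neg (by omega), if_pos (by omega)]
        simp [inst, hx]
      · have : cls j = P.K + P.Φ + j / P.B % P.Φ := by simp [cls, if_neg h, hx]
        rw [this, if_neg (by omega), if_neg (by omega)]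
        simp [inst, hx]
  · simp only [ℓ]
    split_ifs
    exacts [(P.len_pos _ _ _).le, (P.lam_pos _).le, zero_le_two]
  · have h1 := P.div_lt hj
    simp only [inst] at hi
    split_ifs at hi with h
    · simp at hi
    · rw [mem_singleton.1 hi]
      simp only [cls, P.crit_div, if_true]
      generalize j / P.B = d at *
      split_ifs <;> omega
  · rw [sum_range_add, sum_range_add, add_assoc]
    refine add_le_add (le_of_eq (sum_congr rfl fun i hi => if_pos (mem_range.1 hi))) ?_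
    have e1 : ∑ i ∈ range P.Φ, ℓ (P.K + i) ≤ ∑ i ∈ range P.Φ, (1 : ℝ) := sum_le_sum fun i hi => by
      have := mem_range.1 hi
      simp only [ℓ]
      rw [if_neg (by omega), if_pos (by omega)]
      exact P.lam_le_one _
    have e2 : ∑ i ∈ range P.Φ, ℓ (P.K + P.Φ + i) ≤ ∑ i ∈ range P.Φ, (2 : ℝ) :=
      sum_le_sum fun i _ => by
        simp only [ℓ]
        rw [if_neg (by omega), if_neg (by omega)]
    simp only [sum_const, card_range, nsmul_eq_mul] at e1 e2
    linarith

theorem mean_len (c : ℕ → Fin P.B) {j : ℕ} (hj : j < P.N) :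
    ∑ x, wt P.pr x * (P.inst c (P.ex x)).len j ≤ 3 * P.lam (j / P.B) := by
  have h1 : ∀ x, (P.inst c (P.ex x)).len j ≤
      P.lam (j / P.B) + 2 * if x ⟨j, hj⟩ then 1 else 0 := fun x => by
    have := P.lam_pos (j / P.B)
    simp only [inst, ex, dif_pos hj]
    split_ifs <;> linarith
  refine (sum_le_sum fun x _ => mul_le_mul_of_nonneg_left (h1 x)
    (wt_nonneg P.pr0 P.pr1 x)).trans (le_of_eq ?_)
  simp only [mul_add, sum_add_distrib, mul_left_comm _ (2 : ℝ), ← mul_sum, ← sum_mul, sum_wt,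
    mean_flag, pr]
  ring

theorem opt_bound (c : ℕ → Fin P.B) :
    ∑ x, wt P.pr x * (P.inst c (P.ex x)).opt ≤ 50000 * P.Φ := by
  refine (sum_le_sum fun x _ => mul_le_mul_of_nonneg_left (P.opt_le c _)
    (wt_nonneg P.pr0 P.pr1 x)).trans ?_
  have hn : (0 : ℝ) < n := by exact_mod_cast P.n_pos
  simp only [mul_add, sum_add_distrib, ← sum_mul, sum_wt, one_mul, mul_sum]
  rw [sum_comm, sum_comm (s := univ)]
  have h1 : ∀ j ∈ range P.N, ∑ x, wt P.pr x * (4 * ((P.inst c (P.ex x)).len j *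
      ((P.a (j / P.B) : ℝ) * P.b (j / P.B))) / (n : ℝ) ^ 2) ≤ 12 * (P.W / P.B) / (n : ℝ) ^ 2 := by
    intro j hj
    have := mul_le_mul_of_nonneg_right (P.mean_len c (mem_range.1 hj))
      (show 0 ≤ 4 * ((P.a (j / P.B) : ℝ) * P.b (j / P.B)) / (n : ℝ) ^ 2 by positivity)
    rw [sum_mul] at this
    rw [← P.lam_mul (j / P.B)]
    refine (le_of_eq (sum_congr rfl fun x _ => by ring)).trans (this.trans (le_of_eq (by ring)))
  have hK : (0 : ℝ) < P.K := by exact_mod_cast P.K_pos
  have h2 : ∀ β ∈ range P.K, ∑ x, wt P.pr x * (P.inst c (P.ex x)).len (P.crit c β) ≤ 3 / P.K := by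
    intro β hβ
    refine (P.mean_len c (P.crit_lt c (mem_range.1 hβ))).trans ?_
    rw [le_div_iff₀ hK]
    linarith [P.K_lam (P.crit c β / P.B)]
  refine (add_le_add (sum_le_sum h1) (add_le_add (sum_le_sum h2) le_rfl)).trans ?_
  simp only [sum_const, card_range, nsmul_eq_mul]
  have hΦ : (1 : ℝ) ≤ P.Φ := by exact_mod_cast P.Φ_pos
  have e1 : (P.N : ℝ) * (12 * (P.W / P.B) / (n : ℝ) ^ 2) =
      12 * P.Φ * (P.W * P.R / (n : ℝ) ^ 2) := by
    have := P.B_pos'
    unfold N K; push_cast; field_simp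
  have e2 : P.W * P.R / (n : ℝ) ^ 2 ≤ 4096 := by
    rw [div_le_iff₀ (by positivity), P.R_cast]; exact P.c7
  rw [e1, mul_div_cancel₀ _ hK.ne']
  nlinarith

end Pm

end Pool.Agent.H827Z.Mesh
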