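import Pool.Agent.H827Z.Mesh.Core

set_option autoImplicit false
set_option linter.unusedSectionVars false

open Classical Finset
open Pool.Agent.Helper472.Mesh

namespace Pool.Agent.H827Z.Mesh

variable {n : ℕ}

theorem sum_update {ι α : Type} [Fintype ι] [Fintype α] [DecidableEq ι] (g : (ι → α) → ℝ)
    (i : ι) : ∑ c : ι → α, ∑ v : α, g (Function.update c i v) =
      Fintype.card α * ∑ c : ι → α, g c := by
  have hinv : Function.Involutive
      fun p : (ι → α) × α => (Function.update p.1 i p.2, p.1 i) := fun p => by simp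
  rw [← Fintype.sum_prod_type', ← Equiv.sum_comp hinv.toPerm]
  simp [Fintype.sum_prod_type, mul_sum]

namespace Pm

variable (P : Pm n)

/-- extension of a finite vector of flags -/
def ex (x : Fin P.N → Bool) (j : ℕ) : Bool := if h : j < P.N then x ⟨j, h⟩ else false
/-- extension of a finite vector of critical jobs -/
def ec (c : Fin P.K → Fin P.B) (β : ℕ) : Fin P.B := if h : β < P.K then c ⟨β, h⟩ else ⟨0, P.B_pos⟩
/-- probability of being long -/
noncomputable def pr (j : Fin P.N) : ℝ := P.lam (j / P.B)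

theorem pr0 (j : Fin P.N) : 0 ≤ P.pr j := (P.lam_pos _).le
theorem pr1 (j : Fin P.N) : P.pr j ≤ 1 := P.lam_le_one _
theorem ex_coe (x : Fin P.N → Bool) (j : Fin P.N) : P.ex x j = x j := by simp [ex]

/-- penalty of a block -/
noncomputable def pen (c : ℕ → Fin P.B) (x : ℕ → Bool) (S : Sched) (β : ℕ) : ℝ :=
  2 / P.Φ * (if ¬ P.good c x S β then 1 else 0) + (if P.Ev S x β (P.heavy β) then 1 else 0) +
    ∑ e ∈ (range (n + 1) ×ˢ range (n + 1)) ×ˢ (range (n + 1) ×ˢ range (n + 1)),
      if P.Ev S x β (fun J => ¬ Disjoint (Rect.cells ⟨e.1.1, e.1.2, e.2.1, e.2.2⟩) J.cells)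
        then 1 else 0

variable {P}

theorem pointwise {c : ℕ → Fin P.B} {x : ℕ → Bool} {S : Sched} (hS : (P.inst c x).Feasible S) :
    P.R - ∑ β ∈ range P.K, P.pen c x S β ≤ (P.inst c x).makespan S := by
  have i0 : ∀ p : Prop, (0 : ℝ) ≤ if p then 1 else 0 := fun p => by positivity
  have hΦ : (0 : ℝ) < P.Φ := by exact_mod_cast P.Φ_pos
  have p1 : ∀ β, 2 / P.Φ * (if ¬ P.good c x S β then 1 else 0) ≤ P.pen c x S β := fun β => by
    unfold pen
    rw [add_assoc]
    exact le_add_of_nonneg_right (add_nonneg (i0 _) (sum_nonneg fun _ _ => i0 _))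
  have p0 : ∀ β, 0 ≤ P.pen c x S β := fun β => le_trans (by positivity) (p1 β)
  by_cases hH : ∀ j < P.N, P.heavy (j / P.B) (S.rect j) → x j = false
  swap
  · push Not at hH
    obtain ⟨j, hj, h1, h2⟩ := hH
    refine le_trans ?_ ((P.inst c x).le_makespan S hj)
    have hw : (0 : ℝ) < (S.rect j).w := by exact_mod_cast hS.w_pos j hj
    have hh : (0 : ℝ) < (S.rect j).h := by exact_mod_cast hS.h_pos j hj
    have h3 : (P.R : ℝ) ≤ 2 * ((P.a (j / P.B) : ℝ) * P.b (j / P.B)) /
        (((S.rect j).w : ℝ) * (S.rect j).h) := by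
      rw [le_div_iff₀ (by positivity)]
      unfold heavy at h1
      have : (0 : ℝ) ≤ P.R * (((S.rect j).w : ℝ) * (S.rect j).h) := by positivity
      linarith
    have h4 := hS.start_nonneg j hj
    have h5 := sum_nonneg fun β (_ : β ∈ range P.K) => p0 β
    simp only [Inst.finish, inst, Bool.not_eq_false] at h2 ⊢
    rw [if_pos h2]
    linarith
  have step : ∀ r < P.R, 1 - ∑ β ∈ Ico (r * P.Φ) ((r + 1) * P.Φ), P.pen c x S β ≤
      P.sig c x S ((r + 1) * P.Φ) - P.sig c x S (r * P.Φ) := by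
    intro r hr
    by_contra hcon
    have h0 := sig_mono hS (Nat.mul_le_mul_right P.Φ (Nat.le_succ r)) (Nat.mul_le_mul_right _ hr)
    have h1 := sum_nonneg fun β (_ : β ∈ Ico (r * P.Φ) ((r + 1) * P.Φ)) => p0 β
    have h2 : ∑ β ∈ Ico (r * P.Φ) ((r + 1) * P.Φ), P.pen c x S β < 1 := by
      simp only [Nat.succ_eq_add_one] at h0
      linarith [not_le.1 hcon]
    have h3 : ∀ β ∈ Ico (r * P.Φ) ((r + 1) * P.Φ), P.pen c x S β < 1 := fun β hβ =>
      (single_le_sum (fun β _ => p0 β) hβ).trans_lt h2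
    refine core hS hr (by linarith [not_le.1 hcon]) hH (fun β hβ h => ?_)
      (fun β hβ Q hx hy h => ?_) ?_
    · refine absurd (h3 β hβ) (not_lt.2 ?_)
      unfold pen
      rw [if_pos h]
      exact le_add_of_le_of_nonneg (le_add_of_nonneg_left (by positivity))
        (sum_nonneg fun _ _ => i0 _)
    · refine absurd (h3 β hβ) (not_lt.2 ?_)
      refine le_add_of_nonneg_of_le (by positivity) (le_trans ?_
        (single_le_sum (fun _ _ => i0 _) (a := ((Q.x, Q.y), (Q.w, Q.h))) (by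
          simp only [mem_product, mem_range]; omega)))
      rw [if_pos h]
    · have h4 := (sum_le_sum fun β _ => p1 β).trans_lt h2
      rw [← mul_sum, sum_boole, div_mul_eq_mul_div, div_lt_one hΦ] at h4
      have h5 := card_filter_add_card_filter_not (s := Ico (r * P.Φ) ((r + 1) * P.Φ))
        (P.good c x S)
      rw [Nat.card_Ico, add_mul, one_mul, Nat.add_sub_cancel_left] at h5
      have h6 := congrArg (Nat.cast : ℕ → ℝ) h5
      rw [Nat.cast_add] at h6
      rw [add_mul, one_mul] at h4 ⊢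
      linarith
  have ind : ∀ r ≤ P.R, r - ∑ β ∈ range (r * P.Φ), P.pen c x S β ≤ P.sig c x S (r * P.Φ) := by
    intro r
    induction r with
    | zero => intro _; simp [sig]
    | succ r ih =>
      intro hr
      rw [← sum_range_add_sum_Ico _ (Nat.mul_le_mul_right P.Φ (Nat.le_succ r))]
      have := step r hr
      have := ih (by omega)
      push_cast
      linarith
  refine (ind P.R le_rfl).trans ?_
  have hK := P.K_pos
  rw [show P.R * P.Φ = P.K - 1 + 1 by unfold K at *; omega, sig_succ]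
  exact (P.inst c x).le_makespan S (P.crit_lt c (by omega))

variable {A : Inst n → Sched}

theorem ev_prob (hA : Online A) (c : ℕ → Fin P.B) (β : ℕ) (ψ : Rect → Prop) :
    ∑ x, wt P.pr x * (if P.Ev (A (P.inst c (P.ex x))) (P.ex x) β ψ then 1 else 0) ≤
      Real.exp (-P.Lg) := by
  have : Nonempty (Fin P.N) := ⟨⟨0, P.N_pos⟩⟩
  refine le_trans (le_of_eq ?_) ((deferred P.pr0 P.pr1 (P.lam_le_one β)
    (fun x => P.Rel (A (P.inst c (P.ex x))) β ψ) (fun x j => (A (P.inst c (P.ex x))).start j)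
    (fun x j hj => by rw [pr, (mem_Rel.1 hj).1]) (fun x j _ hx i => ?_) (P.M β)).trans
      (P.pow_M β))
  · simp only [Ev, ex_coe]
  · obtain ⟨h1, h2⟩ := flip_agree hA P c (x := P.ex x) (x' := P.ex (Function.update x j true))
      j.2 (by rw [ex_coe, hx]) (fun l hl => by
        unfold ex
        split_ifs with h
        · exact Function.update_of_ne (fun h' => hl (congrArg Fin.val h')) _ _
        · rfl) i.2
    refine ⟨⟨fun h => ?_, fun h => ?_⟩, fun _ h => (h1 h).1⟩
    · rw [mem_Rel, (h1 h.2).1, (h1 h.2).2]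
      exact ⟨mem_Rel.1 h.1, h.2⟩
    · rw [mem_Rel, ← (h1 (h2 h.2)).2]
      exact ⟨mem_Rel.1 h.1, h2 h.2⟩

theorem bad_prob (hA : Online A) (x : ℕ → Bool) {β : ℕ} (hβ : β < P.K) :
    ∑ c : Fin P.K → Fin P.B, (if ¬ P.good (P.ec c) x (A (P.inst (P.ec c) x)) β then (1 : ℝ)
      else 0) ≤ Fintype.card (Fin P.K → Fin P.B) / 8 := by
  have h1 := sum_update (fun c : Fin P.K → Fin P.B =>
    if ¬ P.good (P.ec c) x (A (P.inst (P.ec c) x)) β then (1 : ℝ) else 0) ⟨β, hβ⟩
  have h2 : ∀ c : Fin P.K → Fin P.B, ∑ v, (if ¬ P.good (P.ec (Function.update c ⟨β, hβ⟩ v)) x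
      (A (P.inst (P.ec (Function.update c ⟨β, hβ⟩ v)) x)) β then (1 : ℝ) else 0) ≤ 2 * P.q := by
    intro c
    let u : Fin P.B → ℕ → Fin P.B := fun v => P.ec (Function.update c ⟨β, hβ⟩ v)
    have hu : ∀ v, P.crit (u v) β = β * P.B + v := fun v => by simp [u, crit, ec, hβ]
    have hu' : ∀ v s γ, γ ≠ β → u v γ = u s γ := fun v s γ h => by
      simp only [u, ec]
      split_ifs with h'
      · rw [Function.update_of_ne (fun e => h (congrArg Fin.val e)),
          Function.update_of_ne (fun e => h (congrArg Fin.val e))]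
      · rfl
    let F : Fin P.B → ℝ := fun s => (P.inst (u s) x).finish (A (P.inst (u s) x)) (P.crit (u s) β)
    rw [sum_boole]
    refine le_trans (Nat.cast_le.2 ((card_le_card fun v hv => ?_).trans
      (few_small F (2 * P.q)))) (by simp)
    refine mem_filter.2 ⟨mem_univ _, lt_of_le_of_lt (card_le_card fun s hs => ?_)
      (not_le.1 (mem_filter.1 hv).2)⟩
    have h3 := (mem_filter.1 hs).2
    have h4 := crit_agree hA P x hβ (hu' v s) h3
    refine mem_filter.2 ⟨mem_univ _, ?_⟩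
    rw [← hu s]
    exact h4.trans_le h3
  have h3 := sum_le_sum fun c (_ : c ∈ univ) => h2 c
  rw [h1, sum_const, nsmul_eq_mul, card_univ, Fintype.card_fin, P.B_cast] at h3
  have hq : (0 : ℝ) < P.q := by have := P.q_ge; exact_mod_cast (by omega : 0 < P.q)
  refine le_of_mul_le_mul_left (h3.trans (le_of_eq ?_)) (by positivity : (0 : ℝ) < 16 * P.q)
  ring

theorem alg_bound (hA : Online A) :
    Fintype.card (Fin P.K → Fin P.B) * (P.R / 2 : ℝ) ≤ ∑ c : Fin P.K → Fin P.B, ∑ x, wt P.pr x *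
      (P.inst (P.ec c) (P.ex x)).makespan (A (P.inst (P.ec c) (P.ex x))) := by
  set C : ℝ := (Fintype.card (Fin P.K → Fin P.B) : ℝ) with hC
  have hC0 : 0 ≤ C := Nat.cast_nonneg _
  have hΦ : (0 : ℝ) < P.Φ := by exact_mod_cast P.Φ_pos
  have hw := wt_nonneg P.pr0 P.pr1
  have h1 : ∀ β ∈ range P.K, ∑ c : Fin P.K → Fin P.B, ∑ x, wt P.pr x *
      P.pen (P.ec c) (P.ex x) (A (P.inst (P.ec c) (P.ex x))) β ≤ C / (2 * P.Φ) := by
    intro β hβ
    simp only [pen, mul_add, sum_add_distrib]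
    have e1 : ∑ c : Fin P.K → Fin P.B, ∑ x, wt P.pr x * (2 / P.Φ * if ¬ P.good (P.ec c) (P.ex x)
        (A (P.inst (P.ec c) (P.ex x))) β then (1 : ℝ) else 0) ≤ 2 / P.Φ * (C / 8) := by
      rw [sum_comm]
      simp only [← mul_sum]
      refine (sum_le_sum fun x _ => mul_le_mul_of_nonneg_left (mul_le_mul_of_nonneg_left
        (bad_prob hA (P.ex x) (mem_range.1 hβ)) (by positivity)) (hw x)).trans ?_
      rw [← sum_mul, sum_wt, one_mul]
    have e2 := sum_le_sum fun (c : Fin P.K → Fin P.B) (_ : c ∈ univ) =>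
      ev_prob hA (P.ec c) β (P.heavy β)
    have e3 : ∀ c : Fin P.K → Fin P.B, ∑ x, wt P.pr x *
        ∑ e ∈ (range (n + 1) ×ˢ range (n + 1)) ×ˢ (range (n + 1) ×ˢ range (n + 1)),
          (if P.Ev (A (P.inst (P.ec c) (P.ex x))) (P.ex x) β
            (fun J => ¬ Disjoint (Rect.cells ⟨e.1.1, e.1.2, e.2.1, e.2.2⟩) J.cells)
            then (1 : ℝ) else 0) ≤ ((n : ℝ) + 1) ^ 4 * Real.exp (-P.Lg) := fun c => by
      simp only [mul_sum]
      rw [sum_comm]
      refine (sum_le_sum fun e _ => ev_prob hA (P.ec c) β _).trans (le_of_eq ?_)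
      simp only [sum_const, nsmul_eq_mul, card_product, card_range]
      push_cast
      ring
    have e4 := sum_le_sum fun (c : Fin P.K → Fin P.B) (_ : c ∈ univ) => e3 c
    rw [sum_const, nsmul_eq_mul, card_univ, ← hC] at e2 e4
    refine (add_le_add (add_le_add e1 e2) e4).trans ?_
    have e5 := mul_le_mul_of_nonneg_left P.c6 hC0
    rw [← P.Φ_cast] at e5
    rw [le_div_iff₀ (by positivity)]
    have : 2 / P.Φ * (C / 8) * (2 * P.Φ) = C / 2 := by field_simp; ring
    nlinarith
  have h2 := sum_le_sum h1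
  rw [sum_const, nsmul_eq_mul, card_range, sum_comm] at h2
  refine le_trans ?_ (sum_le_sum fun c _ => sum_le_sum fun x _ =>
    mul_le_mul_of_nonneg_left (pointwise (hA.feasible _)) (hw x))
  simp only [mul_sub, sum_sub_distrib, ← sum_mul, sum_wt, one_mul, sum_const, card_univ,
    nsmul_eq_mul, mul_sum]
  have h3 : (P.K : ℝ) * (C / (2 * P.Φ)) = C * (P.R / 2) := by unfold K; push_cast; field_simp
  have h4 := sum_congr rfl fun (c : Fin P.K → Fin P.B) (_ : c ∈ univ) => sum_comm (s := univ)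
    (t := range P.K) (f := fun x β => wt P.pr x *
      P.pen (P.ec c) (P.ex x) (A (P.inst (P.ec c) (P.ex x))) β)
  rw [h4, ← hC]
  linarith

end Pm

end Pool.Agent.H827Z.Mesh
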